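import Mathlib

/-!
# Powers of logarithms
-/

set_option autoImplicit false

open Filter Topology

noncomputable section

namespace Pool.Agent.LE.QD.H33

/-- powers beat powers of the logarithm -/
theorem ev (K : ℝ) {a : ℝ} (b : ℕ) (ha : 0 < a) :
    ∀ᶠ t in 𝓝[>] (0 : ℝ), K * (t ^ a * Real.log (1 / t) ^ b) ≤ 1 := by
  have hb : (0 : ℝ) < b + 1 := by positivity
  have hab : 0 < a / (b + 1) := div_pos ha hb
  have h1 : Tendsto (fun t : ℝ => Real.log t * t ^ (a / (b + 1))) (𝓝[>] 0) (𝓝 0) :=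
    tendsto_log_mul_rpow_nhdsGT_zero hab
  have h2 : Tendsto (fun t : ℝ => (-(Real.log t * t ^ (a / (b + 1)))) ^ b) (𝓝[>] 0)
      (𝓝 ((-0) ^ b)) := h1.neg.pow b
  have h3 : Tendsto (fun t : ℝ => t ^ (a / (b + 1))) (𝓝[>] 0) (𝓝 0) := by
    have h := (Real.continuousAt_rpow_const 0 (a / (b + 1)) (Or.inr hab.le)).tendsto
    rw [Real.zero_rpow hab.ne'] at h
    exact h.mono_left nhdsWithin_le_nhds
  have h4 : Tendsto (fun t : ℝ => K * ((-(Real.log t * t ^ (a / (b + 1)))) ^ b *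
      t ^ (a / (b + 1)))) (𝓝[>] 0) (𝓝 (K * ((-0) ^ b * 0))) := (h2.mul h3).const_mul K
  rw [mul_zero, mul_zero] at h4
  filter_upwards [h4.eventually_le_const one_pos, self_mem_nhdsWithin] with t ht ht0
  have ht0' : (0 : ℝ) < t := ht0
  have e1 : t ^ a * Real.log (1 / t) ^ b = (-(Real.log t * t ^ (a / (b + 1)))) ^ b *
      t ^ (a / (b + 1)) := by
    have e2 : t ^ a = (t ^ (a / (b + 1))) ^ (b + 1) := by
      rw [← Real.rpow_natCast, ← Real.rpow_mul ht0'.le]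
      congr 1
      push_cast
      field_simp
    rw [e2, one_div, Real.log_inv, pow_succ, ← neg_mul, mul_pow]
    ring
  rw [e1]
  exact ht

/-- extraction of a threshold -/
theorem ext {P : ℝ → Prop} (h : ∀ᶠ t in 𝓝[>] (0 : ℝ), P t) (c₀ : ℝ) (hc₀ : 0 < c₀) :
    ∃ c : ℝ, 0 < c ∧ c ≤ c₀ ∧ ∀ t, 0 < t → t ≤ c → P t := by
  obtain ⟨u, hu, hs⟩ := (mem_nhdsGT_iff_exists_Ioc_subset).1 h
  refine ⟨min u c₀, lt_min hu hc₀, min_le_right _ _, fun t h1 h2 => hs ⟨h1, ?_⟩⟩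
  exact h2.trans (min_le_left _ _)

theorem te {t : ℝ} (ht : 0 < t) (a : ℝ) : t ^ a = Real.exp (-(a * Real.log (1 / t))) := by
  rw [Real.rpow_def_of_pos ht, one_div, Real.log_inv]
  congr 1
  ring

/-- `t ^ a` as a natural power of `x = t ^ (1 / 30)` -/
theorem pw {t : ℝ} (ht : 0 < t) (n : ℕ) {a : ℝ} (h : a = n / 30) :
    t ^ a = (t ^ (1 / 30 : ℝ)) ^ n := by
  rw [h, ← Real.rpow_natCast, ← Real.rpow_mul ht.le]
  congr 1
  ring

theorem pwn {t : ℝ} (ht : 0 < t) (n : ℕ) {a : ℝ} (h : a = -(n / 30)) :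
    t ^ a = ((t ^ (1 / 30 : ℝ)) ^ n)⁻¹ := by
  rw [h, Real.rpow_neg ht.le, pw ht n rfl]

theorem evx (K : ℝ) (m b : ℕ) (hm : 1 ≤ m) : ∀ᶠ t in 𝓝[>] (0 : ℝ),
    K * ((t ^ (1 / 30 : ℝ)) ^ m * Real.log (1 / t) ^ b) ≤ 1 := by
  have hm' : (0 : ℝ) < m := by exact_mod_cast hm
  have h := ev K (a := m / 30) b (by positivity)
  filter_upwards [h, self_mem_nhdsWithin] with t ht ht0
  rw [← pw ht0 m rfl]
  exact ht

/-- the basic facts -/
theorem base {t : ℝ} (ht : 0 < t) (h4 : t ≤ 1 / 4) : 0 < t ^ (1 / 30 : ℝ) ∧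
    t ^ (1 / 30 : ℝ) ≤ 1 ∧ (t ^ (1 / 30 : ℝ)) ^ 30 = t ∧ 1 ≤ Real.log (1 / t) := by
  refine ⟨Real.rpow_pos_of_pos ht _, Real.rpow_le_one ht.le (by linarith) (by norm_num), ?_, ?_⟩
  · rw [← pw ht 30 (a := 1) (by norm_num), Real.rpow_one]
  · rw [Real.le_log_iff_exp_le (by positivity)]
    have h1 : 4 ≤ 1 / t := by
      rw [le_div_iff₀ ht]
      linarith
    have h2 := Real.exp_one_lt_d9
    linarith

/-- the volume of the torus -/
theorem expM {M : ℕ} {t : ℝ} (ht : 0 < t) (hM : (M : ℝ) ≤ t ^ (-20 : ℝ)) (d : ℕ) :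
    (M : ℝ) ^ d ≤ Real.exp (20 * d * Real.log (1 / t)) := by
  rw [te ht] at hM
  calc (M : ℝ) ^ d ≤ (Real.exp (-(-20 * Real.log (1 / t)))) ^ d :=
        pow_le_pow_left₀ (Nat.cast_nonneg _) hM d
    _ = Real.exp (20 * d * Real.log (1 / t)) := by
        rw [← Real.exp_nat_mul]
        congr 1
        ring

end Pool.Agent.LE.QD.H33
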