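import Pool.Agent.LE.StmtsQE
import Pool.Agent.Helper33_LQD.Ev

/-!
# Row TOA: numbers on the torus, the diagonal and the self-consistent equation
-/

set_option autoImplicit false

open MeasureTheory ProbabilityTheory Function Filter

open scoped ENNReal BigOperators Topology NNReal ComplexOrder Matrix

noncomputable section

namespace Pool.Agent.LE.QD.H33

open Pool.Agent.Anderson hiding box mem_box card_box
open Pool.Agent.Loc Pool.Agent.Mob Pool.Agent.Helper54.Bal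
  Pool.Agent.Helper96.EXP Pool.Agent.BED
open Pool.Agent.LE.MN Pool.Agent.LE.CL Pool.Agent.LE.IR

/-! ### numbers -/

/-- the numbers of the form bound -/
theorem num_f {d M k : ℕ} {l a K₂ K₁ C₂ B η₁ v r : ℝ} (hl : 1 ≤ l)
    (hM : (M : ℝ) ^ d ≤ Real.exp (20 * d * l)) (hC : 1 ≤ C₂) (hK2 : K₂ = 2 * (20 * d + a + 1))
    (ht : Real.exp (-l) ≤ 1 / 4) (ha : 0 ≤ a) (hK1 : K₁ = 600 * K₂ ^ 2 * C₂) (hB0 : 0 ≤ B)
    (hB : B ≤ 3 * C₂ * l) (hv : 0 < v) (hη : η₁ = K₁ * v * l ^ 3) (hr : r ^ 2 = K₂ * l)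
    (hk : k = ⌈K₂ * l⌉₊) :
    2 * (M : ℝ) ^ d * Real.exp (-(r ^ 2 / 2)) +
      (M : ℝ) ^ d * (2 * k * r ^ 2 * v * (B / η₁) / (1 / 4) ^ 2) ^ k ≤ Real.exp (-(a * l)) := by
  have hd0 : (0 : ℝ) ≤ d := Nat.cast_nonneg d
  have hK2' : 2 ≤ K₂ := by rw [hK2]; linarith
  have hl0 : 0 < l := by linarith
  have hKl : 1 ≤ K₂ * l := by nlinarith
  have hk1 : K₂ * l ≤ k := by rw [hk]; exact Nat.le_ceil _
  have hk2 : (k : ℝ) ≤ 2 * (K₂ * l) := by
    have h := (Nat.ceil_lt_add_one (show 0 ≤ K₂ * l by linarith)).le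
    rw [← hk] at h
    linarith
  have hK1' : 0 < K₁ := by rw [hK1]; positivity
  have hq0 : 0 ≤ 2 * k * r ^ 2 * v * (B / η₁) / (1 / 4) ^ 2 := by
    rw [hη]
    positivity
  have hq : 2 * k * r ^ 2 * v * (B / η₁) / (1 / 4) ^ 2 ≤ Real.exp (-1) := by
    have e1 : 2 * k * r ^ 2 * v * (B / η₁) / (1 / 4) ^ 2 =
        32 * (k * (K₂ * l)) * (B / (K₁ * l ^ 3)) := by
      rw [hr, hη]
      field_simp
      ring
    have e2 : B / (K₁ * l ^ 3) ≤ 3 * C₂ * l / (K₁ * l ^ 3) :=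
      div_le_div_of_nonneg_right hB (by positivity)
    have e3 : 32 * (k * (K₂ * l)) * (B / (K₁ * l ^ 3)) ≤
        32 * (2 * (K₂ * l) * (K₂ * l)) * (3 * C₂ * l / (K₁ * l ^ 3)) := by
      apply mul_le_mul _ e2 (by positivity) (by positivity)
      have := mul_le_mul_of_nonneg_right hk2 (show 0 ≤ K₂ * l by linarith)
      linarith
    have e4 : 32 * (2 * (K₂ * l) * (K₂ * l)) * (3 * C₂ * l / (K₁ * l ^ 3)) = 192 / 600 := by
      rw [hK1]
      field_simp
      norm_num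
    have e5 := Real.exp_neg_one_gt_d9
    rw [e1]
    rw [e4] at e3
    refine e3.trans ?_
    norm_num at e5 ⊢
    linarith
  have hqk : (2 * k * r ^ 2 * v * (B / η₁) / (1 / 4) ^ 2) ^ k ≤ Real.exp (-(K₂ * l)) := by
    refine (pow_le_pow_left₀ hq0 hq k).trans ?_
    rw [← Real.exp_nat_mul]
    apply Real.exp_le_exp.2
    linarith
  have h1 : 2 * (M : ℝ) ^ d * Real.exp (-(r ^ 2 / 2)) ≤ 2 * Real.exp (-((a + 1) * l)) := by
    rw [mul_assoc]
    refine mul_le_mul_of_nonneg_left ?_ (by norm_num)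
    calc (M : ℝ) ^ d * Real.exp (-(r ^ 2 / 2)) ≤
        Real.exp (20 * d * l) * Real.exp (-(r ^ 2 / 2)) :=
          mul_le_mul_of_nonneg_right hM (Real.exp_pos _).le
      _ = Real.exp (-((a + 1) * l)) := by
          rw [← Real.exp_add, hr, hK2]
          congr 1
          ring
  have h2 : (M : ℝ) ^ d * (2 * k * r ^ 2 * v * (B / η₁) / (1 / 4) ^ 2) ^ k ≤
      Real.exp (-((a + 1) * l)) := by
    calc (M : ℝ) ^ d * (2 * k * r ^ 2 * v * (B / η₁) / (1 / 4) ^ 2) ^ k ≤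
        Real.exp (20 * d * l) * Real.exp (-(K₂ * l)) :=
          mul_le_mul hM hqk (pow_nonneg hq0 k) (Real.exp_pos _).le
      _ ≤ Real.exp (-((a + 1) * l)) := by
          rw [← Real.exp_add]
          apply Real.exp_le_exp.2
          rw [hK2]
          nlinarith [mul_nonneg hd0 hl0.le, mul_nonneg ha hl0.le]
  have h3 : Real.exp (-((a + 1) * l)) = Real.exp (-l) * Real.exp (-(a * l)) := by
    rw [← Real.exp_add]
    congr 1
    ring
  have h4 : Real.exp (-l) * Real.exp (-(a * l)) ≤ 1 / 4 * Real.exp (-(a * l)) :=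
    mul_le_mul_of_nonneg_right ht (Real.exp_pos _).le
  have h5 := Real.exp_pos (-(a * l))
  linarith

/-- the numbers of the concentration -/
theorem num_d {d M : ℕ} {l a X : ℝ} (hM : (M : ℝ) ^ d ≤ Real.exp (20 * d * l))
    (ht : Real.exp (-l) ≤ 1 / 4) (hX : (20 * d + a + 2) * l ≤ X) :
    Real.exp (-((a + 3) * l)) + (M : ℝ) ^ d * (4 * Real.exp (-X)) ≤ Real.exp (-(a * l)) := by
  have h1 : (M : ℝ) ^ d * (4 * Real.exp (-X)) ≤ 4 * Real.exp (-((a + 2) * l)) := by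
    calc (M : ℝ) ^ d * (4 * Real.exp (-X)) ≤
        Real.exp (20 * d * l) * (4 * Real.exp (-((20 * d + a + 2) * l))) := by
          refine mul_le_mul hM ?_ (by positivity) (Real.exp_pos _).le
          refine mul_le_mul_of_nonneg_left (Real.exp_le_exp.2 (by linarith)) (by norm_num)
      _ = 4 * Real.exp (-((a + 2) * l)) := by
          rw [mul_left_comm, ← Real.exp_add]
          congr 2
          ring
  have e2 : Real.exp (-((a + 2) * l)) = Real.exp (-l) ^ 2 * Real.exp (-(a * l)) := by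
    rw [← Real.exp_nat_mul, ← Real.exp_add]
    congr 1
    push_cast
    ring
  have e3 : Real.exp (-((a + 3) * l)) = Real.exp (-l) ^ 3 * Real.exp (-(a * l)) := by
    rw [← Real.exp_nat_mul, ← Real.exp_add]
    congr 1
    push_cast
    ring
  have h0 := Real.exp_pos (-l)
  have h5 := Real.exp_pos (-(a * l))
  have h2 : Real.exp (-l) ^ 2 ≤ (1 / 4) ^ 2 := pow_le_pow_left₀ h0.le ht 2
  have h3 : Real.exp (-l) ^ 3 ≤ (1 / 4) ^ 3 := pow_le_pow_left₀ h0.le ht 3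
  have h6 := mul_le_mul_of_nonneg_right h2 h5.le
  have h7 := mul_le_mul_of_nonneg_right h3 h5.le
  rw [e3]
  rw [e2] at h1
  linarith

/-! ### the resolvent -/

section res

variable {d M : ℕ} [NeZero M]

theorem mt_es (E η : ℝ) (p : Tor d M) :
    IR.mt (2 * d - E) η p = Real.sqrt ((es p - E) ^ 2 + η ^ 2) := by
  unfold IR.mt es
  congr 1
  ring

theorem rs_bd (hRal : RalStmt) (V : Tor d M → ℝ) {z : ℂ} (hz : 0 < z.im) (x y : Tor d M) :
    ‖rs V z x y‖ ≤ 1 / z.im := (hRal d M V z hz).2.2.2.2.2.2.2.2.2.2.2 x y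

theorem rs_cont (hRal : RalStmt) {z : ℂ} (hz : 0 < z.im) (x y : Tor d M) :
    Continuous fun W : Tor d M → ℝ => rs W z x y :=
  (hRal d M 0 z hz).2.2.2.2.2.2.2.2.2.1 x y

theorem gb_bd (hRal : RalStmt) (v : ℝ≥0) {z : ℂ} (hz : 0 < z.im) : ‖gb d M v z‖ ≤ 1 / z.im := by
  have := gau_isProb (d := d) (M := M) v
  have h := norm_integral_le_of_norm_le_const (μ := gau d M v)
    (Eventually.of_forall fun V => rs_bd hRal V hz (0 : Tor d M) 0)
  rw [probReal_univ, mul_one] at h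
  exact h

/-- the variance of the diagonal -/
theorem var_le (hRal : RalStmt) (v : ℝ≥0) {z : ℂ} (hz : 0 < z.im) {δ₀ p : ℝ} (hp : 0 ≤ p)
    (h : gau d M v {V | ¬ ∀ x, ‖rs V z x x - gb d M v z‖ ≤ δ₀} ≤ ENNReal.ofReal p) :
    ∫ V, ‖rs V z 0 0 - gb d M v z‖ ^ 2 ∂(gau d M v) ≤ δ₀ ^ 2 + (2 / z.im) ^ 2 * p := by
  have := gau_isProb (d := d) (M := M) v
  obtain ⟨T, hT⟩ : ∃ T : Set (Tor d M → ℝ), T = {V | δ₀ < ‖rs V z 0 0 - gb d M v z‖} := ⟨_, rfl⟩
  have hTm : MeasurableSet T := by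
    rw [hT]
    exact measurableSet_lt measurable_const
      ((rs_cont hRal hz 0 0).sub continuous_const).norm.measurable
  have hTS : T ⊆ {V | ¬ ∀ x, ‖rs V z x x - gb d M v z‖ ≤ δ₀} := by
    intro V hV hcon
    rw [hT] at hV
    exact absurd (hcon 0) (not_le.2 hV)
  have hTp : (gau d M v).real T ≤ p := by
    rw [measureReal_def]
    exact ENNReal.toReal_le_of_le_ofReal hp ((measure_mono hTS).trans h)
  have hb : ∀ V : Tor d M → ℝ, ‖rs V z 0 0 - gb d M v z‖ ≤ 2 / z.im := by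
    intro V
    refine (norm_sub_le _ _).trans ?_
    have h1 := rs_bd hRal V hz (0 : Tor d M) 0
    have h2 := gb_bd (d := d) (M := M) hRal v hz
    have h3 : (2 : ℝ) / z.im = 1 / z.im + 1 / z.im := by ring
    rw [h3]
    exact add_le_add h1 h2
  have hle : ∀ V : Tor d M → ℝ, ‖rs V z 0 0 - gb d M v z‖ ^ 2 ≤
      δ₀ ^ 2 + T.indicator (fun _ => (2 / z.im) ^ 2) V := by
    intro V
    by_cases hV : V ∈ T
    · rw [Set.indicator_of_mem hV]
      have := pow_le_pow_left₀ (norm_nonneg _) (hb V) 2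
      nlinarith [sq_nonneg δ₀]
    · rw [Set.indicator_of_notMem hV, add_zero]
      rw [hT] at hV
      exact pow_le_pow_left₀ (norm_nonneg _) (not_lt.1 hV) 2
  have hint : Integrable (fun V => δ₀ ^ 2 + T.indicator (fun _ => (2 / z.im) ^ 2) V)
      (gau d M v) :=
    (integrable_const _).add ((integrable_const _).indicator hTm)
  refine (integral_mono_of_nonneg (Eventually.of_forall fun V => sq_nonneg _) hint
    (Eventually.of_forall hle)).trans ?_
  rw [integral_add (integrable_const _) ((integrable_const _).indicator hTm), integral_const,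
    integral_indicator_const _ hTm, probReal_univ, one_smul, smul_eq_mul]
  have := mul_le_mul_of_nonneg_right hTp (sq_nonneg (2 / z.im))
  linarith

/-- two events of small measure have a common good point -/
theorem ex_good {v : ℝ≥0} {P Q : (Tor d M → ℝ) → Prop} {p q : ℝ} (hp : 0 ≤ p) (hq : 0 ≤ q)
    (hpq : p + q < 1) (h1 : gau d M v {V | ¬ P V} ≤ ENNReal.ofReal p)
    (h2 : gau d M v {V | ¬ Q V} ≤ ENNReal.ofReal q) : ∃ V, P V ∧ Q V := by
  have := gau_isProb (d := d) (M := M) v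
  by_contra hcon
  push Not at hcon
  have h3 : (Set.univ : Set (Tor d M → ℝ)) ⊆ {V | ¬ P V} ∪ {V | ¬ Q V} := by
    intro V _
    by_cases hV : P V
    · exact Or.inr (hcon V hV)
    · exact Or.inl hV
  have h4 := (measure_mono h3).trans (measure_union_le (μ := gau d M v) _ _)
  rw [measure_univ] at h4
  have h5 := h4.trans (add_le_add h1 h2)
  rw [← ENNReal.ofReal_add hp hq, ENNReal.one_le_ofReal] at h5
  linarith

end res

/-! ### the theorem -/

theorem dinv {C x : ℝ} (hx : 0 < x) (a b : ℕ) (h : C * x ^ b ≤ 1) :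
    C / x ^ a ≤ (x ^ (a + b))⁻¹ := by
  have h1 : 0 < x ^ a := pow_pos hx a
  have h2 : 0 < x ^ b := pow_pos hx b
  rw [div_le_iff₀ h1, pow_add, mul_inv, mul_right_comm, inv_mul_cancel₀ h1.ne', one_mul,
    ← one_div, le_div_iff₀ h2]
  exact h

theorem ec_zero {d M : ℕ} [NeZero M] (p : Tor d M) : ec p 0 = 1 := by
  unfold ec
  simp

/-- TOA -/
theorem toa (hRal : RalStmt) (hSob : SobStmt) (hDsu : DsuStmt) (hFbp : FbpStmt)
    (hRes : ResStmt) (hDia : DiaStmt) (hMea : MeaStmt) (hSce : SceStmt) : ToaStmt := by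
  intro d δ A' hd hδ hA'
  obtain ⟨C₁, hC₁, sob⟩ := hSob d hd
  obtain ⟨C₂, hC₂, dsu⟩ := hDsu d hd
  obtain ⟨c₃, C₃, hc₃, hc₃1, hC₃, sce⟩ := hSce d δ hd hδ
  obtain ⟨K₂, hK₂⟩ : ∃ K₂ : ℝ, K₂ = 2 * (20 * d + (A' + 9) + 1) := ⟨_, rfl⟩
  obtain ⟨K₁, hK₁⟩ : ∃ K₁ : ℝ, K₁ = 600 * K₂ ^ 2 * C₂ := ⟨_, rfl⟩
  obtain ⟨Q, hQ⟩ : ∃ Q : ℝ, Q = 13230 * C₁ * C₂ * K₁ ^ 2 := ⟨_, rfl⟩
  have hd0 : (0 : ℝ) ≤ d := Nat.cast_nonneg d
  have hK₂2 : 2 ≤ K₂ := by rw [hK₂]; linarith
  have hK₁1 : 1 ≤ K₁ := by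
    rw [hK₁]
    nlinarith [mul_le_mul hC₂ (pow_le_pow_left₀ (by norm_num) hK₂2 2) (by positivity)
      (by linarith : (0 : ℝ) ≤ C₂)]
  have hQ0 : 0 < Q := by rw [hQ]; positivity
  have ev1 := evx K₁ 60 3 (by norm_num)
  have ev2 := evx C₁ 180 0 (by norm_num)
  have ev3 := evx C₂ 240 0 (by norm_num)
  have ev4 := evx (80 * Q ^ 2 * (20 * d + (A' + 6) + 2)) 2 19 (by norm_num)
  have ev5 := evx 8 23 0 (by norm_num)
  have ev6 := evx (8 * C₂ * K₁ / c₃) 58 4 (by norm_num)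
  have ev7 := evx (2 / c₃) 65 0 (by norm_num)
  have ev8 := evx (1 / c₃) 62 0 (by norm_num)
  have ev9 := evx C₃ 238 0 (by norm_num)
  have ev10 := evx (4 / c₃) 60 1 (by norm_num)
  have ev11 := evx (8 / c₃) 3 1 (by norm_num)
  obtain ⟨c, hc0, hcm, hev⟩ := ext (ev1.and (ev2.and (ev3.and (ev4.and (ev5.and (ev6.and
    (ev7.and (ev8.and (ev9.and (ev10.and ev11)))))))))) (min c₃ (1 / 4))
    (lt_min hc₃ (by norm_num))
  have hc3 : c ≤ c₃ := hcm.trans (min_le_left _ _)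
  have hc4 : c ≤ 1 / 4 := hcm.trans (min_le_right _ _)
  obtain ⟨C, hC⟩ : ∃ C : ℝ, C = C₃ + K₁ + 441 * C₁ + 3 * C₂ := ⟨_, rfl⟩
  refine ⟨c, C, hc0, hc4, by rw [hC]; linarith, ?_⟩
  intro M _ v σ E η hv hσ hσc hE hη hM1 hM2
  obtain ⟨t, ht⟩ : ∃ t : ℝ, t = |σ| := ⟨_, rfl⟩
  have ht0 : 0 < t := by rw [ht]; exact abs_pos.2 hσ
  rw [← ht] at hσc hη hM1 hM2 ⊢
  have hv2 : (v : ℝ) = t ^ 2 := by rw [hv, ht, sq_abs]
  rw [← hv, hv2]
  obtain ⟨f1, f2, f3, f4, f5, f6, f7, f8, f9, f10, f11⟩ := hev t ht0 hσc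
  have ht4 : t ≤ 1 / 4 := hσc.trans hc4
  obtain ⟨hx0, hx1, hx30, hl⟩ := base ht0 ht4
  have hMx := expM ht0 hM2 d
  have pw31 := pw ht0 62 (a := 31 / 15) (by norm_num)
  have pw6 := pw ht0 5 (a := 1 / 6) (by norm_num)
  have pw10 := pw ht0 3 (a := 1 / 10) (by norm_num)
  have pwm10 := pwn ht0 300 (a := -10) (by norm_num)
  have pwm23 := pwn ht0 20 (a := -(2 / 3)) (by norm_num)
  have pwA := te ht0 A'
  have hlt : Real.exp (-Real.log (1 / t)) = t := by
    rw [one_div, Real.log_inv, neg_neg, Real.exp_log ht0]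
  have hM20 : Real.log M ≤ 20 * Real.log (1 / t) := by
    have h1 : (0 : ℝ) < M := Nat.cast_pos.2 (NeZero.pos M)
    have h2 := Real.log_le_log h1 hM2
    rw [Real.log_rpow ht0] at h2
    rw [one_div, Real.log_inv]
    linarith
  rw [pw31] at hη
  rw [pwm10] at hM1
  rw [pw6, pw10, pwm23, pwA]
  generalize hx : t ^ (1 / 30 : ℝ) = x at *
  generalize hl' : Real.log (1 / t) = l at *
  simp only [pow_zero, mul_one, pow_one] at f1 f2 f3 f4 f5 f6 f7 f8 f9 f10 f11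
  have hxt : t ^ 2 = x ^ 60 := by rw [← hx30]; ring
  have hl0 : 0 < l := by linarith
  have hl1 : 0 < Real.exp (-l) := Real.exp_pos _
  have hexp4 : Real.exp (-l) ≤ 1 / 4 := by rw [hlt]; exact ht4
  rw [hxt] at hv2 ⊢
  have hv0 : 0 < (v : ℝ) := by rw [hv2]; positivity
  have hη0 : 0 < η := by rw [hη]; positivity
  -- the scale `η₁`
  obtain ⟨η₁, hη₁⟩ : ∃ η₁ : ℝ, η₁ = K₁ * v * l ^ 3 := ⟨_, rfl⟩
  have hη₁' : η₁ = K₁ * x ^ 60 * l ^ 3 := by rw [hη₁, hv2]
  have hl3 : 1 ≤ l ^ 3 := one_le_pow₀ hl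
  have hKl3 : 1 ≤ K₁ * l ^ 3 := one_le_mul_of_one_le_of_one_le hK₁1 hl3
  have hη₁x : x ^ 60 ≤ η₁ := by
    rw [hη₁']
    have := mul_le_mul_of_nonneg_left hKl3 (by positivity : 0 ≤ x ^ 60)
    linarith
  have hηη₁ : η ≤ η₁ := by
    have : x ^ 62 ≤ x ^ 60 := pow_le_pow_of_le_one hx0.le hx1 (by norm_num)
    rw [hη]
    linarith
  have hη₁1 : η₁ ≤ 1 := by
    rw [hη₁']
    linarith
  have hη₁0 : 0 < η₁ := lt_of_lt_of_le (by positivity) hη₁x
  have hM1' : (1 : ℝ) ≤ M := by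
    exact_mod_cast Nat.one_le_iff_ne_zero.2 (NeZero.ne M)
  have hlogM : 0 ≤ Real.log M := Real.log_nonneg hM1'
  -- the Sobolev inequality
  have hsobM : C₁ / η₁ ^ 2 ≤ M := by
    have h1 : C₁ / η₁ ^ 2 ≤ C₁ / x ^ 120 := by
      refine div_le_div_of_nonneg_left (by linarith) (by positivity) ?_
      calc x ^ 120 = (x ^ 60) ^ 2 := by ring
        _ ≤ η₁ ^ 2 := pow_le_pow_left₀ (by positivity) hη₁x 2
    exact h1.trans ((dinv hx0 120 180 f2).trans hM1)
  obtain ⟨A, hA⟩ : ∃ A : ℝ, A = C₁ * η₁ ^ (-(1 / 3 : ℝ)) * (1 + Real.log M) ^ 2 := ⟨_, rfl⟩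
  have hS : Sob d M E η₁ A := by
    rw [hA]
    exact sob M E η₁ hη₁0 hη₁1 hsobM
  have hA0 : 0 < A := by rw [hA]; positivity
  have hη₁r : η₁ ^ (-(1 / 3 : ℝ)) ≤ (x ^ 20)⁻¹ := by
    refine ((Real.rpow_le_rpow_iff_of_neg hη₁0 (by positivity) (by norm_num)).2 hη₁x).trans
      (le_of_eq ?_)
    rw [← Real.rpow_natCast, ← Real.rpow_mul hx0.le, ← Real.rpow_natCast, ← Real.rpow_neg hx0.le]
    norm_num
  have hAle : A ≤ 441 * C₁ * (x ^ 20)⁻¹ * l ^ 2 := by
    rw [hA]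
    have h1 : (1 + Real.log M) ^ 2 ≤ (21 * l) ^ 2 :=
      pow_le_pow_left₀ (by positivity) (by linarith) 2
    calc C₁ * η₁ ^ (-(1 / 3 : ℝ)) * (1 + Real.log M) ^ 2 ≤ C₁ * (x ^ 20)⁻¹ * (21 * l) ^ 2 := by
          gcongr
      _ = 441 * C₁ * (x ^ 20)⁻¹ * l ^ 2 := by ring
  -- the density of states
  obtain ⟨B, hB⟩ : ∃ B : ℝ, B = C₂ * (1 + 2 * l) := ⟨_, rfl⟩
  have hB0 : 0 < B := by rw [hB]; positivity
  have hBle : B ≤ 3 * C₂ * l := by
    rw [hB]
    have := mul_le_mul_of_nonneg_left (show 1 + 2 * l ≤ 3 * l by linarith)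
      (by linarith : 0 ≤ C₂)
    linarith
  have hdsuM : C₂ / η₁ ≤ M := by
    have h1 : C₂ / η₁ ≤ C₂ / x ^ 60 :=
      div_le_div_of_nonneg_left (by linarith) (by positivity) hη₁x
    exact h1.trans ((dinv hx0 60 240 f3).trans hM1)
  have hpm : pm (fun p : Tor d M => (IR.mt (2 * d - E) η₁ p)⁻¹) ≤ B := by
    have h1 := (dsu M E η₁ hη₁0 hη₁1 hdsuM).2
    simp_rw [mt_es]
    refine h1.trans ?_
    rw [hB]
    refine mul_le_mul_of_nonneg_left ?_ (by linarith)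
    have h2 : Real.log (1 / η₁) ≤ Real.log (1 / t ^ 2) := by
      refine Real.log_le_log (by positivity) (one_div_le_one_div_of_le (by positivity) ?_)
      rw [hxt]
      exact hη₁x
    have h3 : Real.log (1 / t ^ 2) = 2 * l := by
      rw [← hl', one_div, one_div, Real.log_inv, Real.log_inv, Real.log_pow]
      push_cast
      ring
    linarith
  -- the form bound
  have hr2 : (Real.sqrt (K₂ * l)) ^ 2 = K₂ * l := Real.sq_sqrt (by positivity)
  have hF0 : gau d M v {V | ¬ FBq E η₁ (1 / 4) V} ≤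
      ENNReal.ofReal (Real.exp (-((A' + 9) * l))) := by
    refine (hFbp d M v E η₁ (1 / 4) (Real.sqrt (K₂ * l)) B ⌈K₂ * l⌉₊ hη₁0 (by norm_num)
      (Real.sqrt_nonneg _) (Nat.one_le_ceil_iff.2 (by positivity)) hpm).trans
      (ENNReal.ofReal_le_ofReal ?_)
    exact num_f hl hMx hC₂ hK₂ hexp4 (by linarith) hK₁ hB0.le hBle hv0 hη₁ hr2 rfl
  have hexp : ∀ (a : ℝ) (n : ℕ), (n : ℝ) ≤ a → Real.exp (-(a * l)) ≤ x ^ (30 * n) := by
    intro a n han
    have h1 : Real.exp (-(a * l)) ≤ Real.exp (-l) ^ n := by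
      rw [← Real.exp_nat_mul]
      apply Real.exp_le_exp.2
      have := mul_le_mul_of_nonneg_right han hl0.le
      linarith
    rw [hlt, ← hx30, ← pow_mul] at h1
    exact h1
  have hp90 : Real.exp (-((A' + 9) * l)) ≤ x ^ 90 := hexp _ 3 (by push_cast; linarith)
  have hp180 : Real.exp (-((A' + 6) * l)) ≤ x ^ 180 := hexp _ 6 (by push_cast; linarith)
  -- the diagonal
  have hratio : η₁ / η = K₁ * l ^ 3 / x ^ 2 := by
    rw [hη₁', hη]
    field_simp
  have hD0 : gau d M v {V | ¬ ∀ y, ‖rs V ⟨E, η⟩ y y - gb d M v ⟨E, η⟩‖ ≤ x ^ 5} ≤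
      ENNReal.ofReal (Real.exp (-((A' + 6) * l))) := by
    have h1 := hDia d M v E η η₁ A B (Real.exp (-((A' + 9) * l))) (x ^ 5 / 4) hη0 hηη₁ hA0 hB0 hS
      hpm hF0 (Real.exp_pos _).le (by positivity)
    refine (measure_mono ?_).trans (h1.trans (ENNReal.ofReal_le_ofReal ?_))
    · intro V hV hcon
      apply hV
      intro y
      refine (hcon y).trans ?_
      have h2 : 4 * Real.exp (-((A' + 9) * l)) / η ≤ 4 * x ^ 28 := by
        rw [hη, div_le_iff₀ (by positivity)]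
        calc 4 * Real.exp (-((A' + 9) * l)) ≤ 4 * x ^ 90 := by linarith
          _ = 4 * x ^ 28 * x ^ 62 := by ring
      have h3 : 4 * x ^ 28 ≤ x ^ 5 / 2 := by
        have := mul_le_mul_of_nonneg_right f5 (by positivity : 0 ≤ x ^ 5 / 2)
        calc 4 * x ^ 28 = 8 * x ^ 23 * (x ^ 5 / 2) := by ring
          _ ≤ 1 * (x ^ 5 / 2) := this
          _ = x ^ 5 / 2 := one_mul _
      linarith
    · have h2 : (20 * d + (A' + 6) + 2) * l ≤ (x ^ 5 / 4) ^ 2 /
          (5 * (10 * A * B * (η₁ / η) ^ 2) ^ 2 * v) := by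
        rw [le_div_iff₀ (by positivity)]
        have h3 : 10 * A * B * (η₁ / η) ^ 2 ≤ Q * l ^ 9 / x ^ 24 := by
          rw [hratio]
          calc 10 * A * B * (K₁ * l ^ 3 / x ^ 2) ^ 2 ≤
              10 * (441 * C₁ * (x ^ 20)⁻¹ * l ^ 2) * (3 * C₂ * l) * (K₁ * l ^ 3 / x ^ 2) ^ 2 := by
                gcongr
            _ = Q * l ^ 9 / x ^ 24 := by
                rw [hQ]
                field_simp
                ring
        have h4 : (10 * A * B * (η₁ / η) ^ 2) ^ 2 ≤ (Q * l ^ 9 / x ^ 24) ^ 2 :=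
          pow_le_pow_left₀ (by positivity) h3 2
        have hA8 : 0 ≤ 20 * (d : ℝ) + (A' + 6) + 2 := by linarith
        calc (20 * d + (A' + 6) + 2) * l * (5 * (10 * A * B * (η₁ / η) ^ 2) ^ 2 * v) ≤
            (20 * d + (A' + 6) + 2) * l * (5 * (Q * l ^ 9 / x ^ 24) ^ 2 * x ^ 60) := by
              rw [hv2]
              gcongr
          _ = 80 * Q ^ 2 * (20 * d + (A' + 6) + 2) * (x ^ 2 * l ^ 19) * (x ^ 10 / 16) := by
              field_simp
              ring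
          _ ≤ 1 * (x ^ 10 / 16) := mul_le_mul_of_nonneg_right f4 (by positivity)
          _ = (x ^ 5 / 4) ^ 2 := by ring
      have h5 := num_d hMx hexp4 h2
      have h6 : A' + 6 + 3 = A' + 9 := by ring
      rw [h6] at h5
      exact h5
  -- the mean of the resolvent
  obtain ⟨hg0, s, hs, hm⟩ := hMea d M v ⟨E, η⟩ (⟨E, η⟩ + v * gb d M v ⟨E, η⟩) (2 * x ^ 5) hη0 rfl
    (by positivity) (by
      refine (var_le hRal v hη0 (Real.exp_pos _).le hD0).trans ?_
      have h1 : (2 / η) ^ 2 * Real.exp (-((A' + 6) * l)) ≤ 4 * x ^ 56 := by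
        rw [hη, div_pow, div_mul_eq_mul_div, div_le_iff₀ (by positivity)]
        calc 2 ^ 2 * Real.exp (-((A' + 6) * l)) ≤ 2 ^ 2 * x ^ 180 := by linarith
          _ = 4 * x ^ 56 * (x ^ 62) ^ 2 := by ring
      have h2 : x ^ 56 ≤ x ^ 10 * (1 / 8) := by
        calc x ^ 56 = x ^ 10 * (x ^ 23 * x ^ 23) := by ring
          _ ≤ x ^ 10 * (x ^ 23 * 1) := by
              gcongr
              exact pow_le_one₀ hx0.le hx1
          _ ≤ x ^ 10 * (1 / 8) := by
              gcongr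
              linarith
      have h3 : 0 < x ^ 10 := by positivity
      have h4 : (⟨E, η⟩ : ℂ).im = η := rfl
      rw [h4]
      have e1 : (x ^ 5) ^ 2 = x ^ 10 := by ring
      have e2 : (2 * x ^ 5) ^ 2 = 4 * x ^ 10 := by ring
      rw [e1, e2]
      linarith)
  have hs2 : ∀ q, ‖s q‖ ≤ 2 * x ^ 3 := by
    intro q
    refine (hs q).trans (le_of_eq ?_)
    have h4 : (⟨E, η⟩ : ℂ).im = η := rfl
    rw [h4, hv2, hη]
    field_simp
  -- the imaginary part of the mean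
  have hsm : ∀ a : ℝ, 1 ≤ a → Real.exp (-(a * l)) ≤ 1 / 4 := by
    intro a ha
    refine (Real.exp_le_exp.2 ?_).trans hexp4
    have := mul_le_mul_of_nonneg_right ha hl0.le
    linarith
  obtain ⟨V₀, hV1, hV2⟩ := ex_good (Real.exp_pos _).le (Real.exp_pos _).le (by
    have h1 := hsm (A' + 9) (by linarith)
    have h2 := hsm (A' + 6) (by linarith)
    linarith) hF0 hD0
  have hgim : (gb d M v ⟨E, η⟩).im ≤ 4 * C₂ * K₁ * l ^ 4 / x ^ 2 + x ^ 5 := by
    have h1 := (hRes d M V₀ E η η₁ A B hη0 hηη₁ hA0.le hS hpm hV1).1 0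
    have h2 := (Complex.abs_im_le_norm _).trans (hV2 0)
    rw [Complex.sub_im] at h2
    have h3 := (abs_le.1 h2).1
    rw [hratio] at h1
    have h4 : 4 / 3 * B * (K₁ * l ^ 3 / x ^ 2) ≤ 4 / 3 * (3 * C₂ * l) * (K₁ * l ^ 3 / x ^ 2) := by
      gcongr
    have h5 : 4 / 3 * (3 * C₂ * l) * (K₁ * l ^ 3 / x ^ 2) = 4 * C₂ * K₁ * l ^ 4 / x ^ 2 := by
      field_simp
    linarith
  have hvg : (v : ℝ) * (gb d M v ⟨E, η⟩).im ≤ c₃ := by
    have h1 : 8 * C₂ * K₁ * (x ^ 58 * l ^ 4) ≤ c₃ := by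
      have : 8 * C₂ * K₁ / c₃ * (x ^ 58 * l ^ 4) = 8 * C₂ * K₁ * (x ^ 58 * l ^ 4) / c₃ := by ring
      rw [this, div_le_one hc₃] at f6
      exact f6
    have h2 : 2 * x ^ 65 ≤ c₃ := by
      have : 2 / c₃ * x ^ 65 = 2 * x ^ 65 / c₃ := by ring
      rw [this, div_le_one hc₃] at f7
      exact f7
    calc (v : ℝ) * (gb d M v ⟨E, η⟩).im ≤ v * (4 * C₂ * K₁ * l ^ 4 / x ^ 2 + x ^ 5) :=
          mul_le_mul_of_nonneg_left hgim hv0.le
      _ = 4 * C₂ * K₁ * (x ^ 58 * l ^ 4) + x ^ 65 := by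
          rw [hv2]
          field_simp
      _ ≤ c₃ := by linarith
  -- the self-consistent equation
  have hlogη : Real.log (1 / η) ≤ 3 * l := by
    have h1 : Real.log (1 / η) ≤ Real.log (1 / t ^ 3) := by
      refine Real.log_le_log (by positivity) (one_div_le_one_div_of_le (by positivity) ?_)
      rw [hη, ← hx30, ← pow_mul]
      exact pow_le_pow_of_le_one hx0.le hx1 (by norm_num)
    have h3 : Real.log (1 / t ^ 3) = 3 * l := by
      rw [← hl', one_div, one_div, Real.log_inv, Real.log_inv, Real.log_pow]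
      push_cast
      ring
    linarith
  have hlogη0 : 1 + Real.log (1 / η) ≤ 4 * l := by linarith
  have hsce := sce M v E η (2 * x ^ 3) (gb d M v ⟨E, η⟩) (⟨E, η⟩ + v * gb d M v ⟨E, η⟩) s hE hη0
    (by
      have : 1 / c₃ * x ^ 62 = x ^ 62 / c₃ := by ring
      rw [this, div_le_one hc₃] at f8
      rw [hη]
      exact f8)
    hv0.le
    (by
      rw [hη]
      exact (dinv hx0 62 238 f9).trans hM1)
    hg0 hvg
    (by
      have : 4 / c₃ * (x ^ 60 * l) = x ^ 60 * (4 * l) / c₃ := by ring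
      rw [this, div_le_one hc₃] at f10
      rw [hv2]
      refine le_trans ?_ f10
      gcongr)
    (by positivity)
    (by
      have : 8 / c₃ * (x ^ 3 * l) = 2 * x ^ 3 * (4 * l) / c₃ := by ring
      rw [this, div_le_one hc₃] at f11
      refine le_trans ?_ f11
      gcongr)
    hs2 rfl
    (by
      have h1 := hm 0 0
      have h2 : gb d M v ⟨E, η⟩ = ∫ V, rs V ⟨E, η⟩ 0 0 ∂(gau d M v) := rfl
      refine (h2.trans h1).trans ?_
      simp only [sub_zero, ec_zero, one_mul])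
  obtain ⟨g1, ⟨g2, g3⟩, g4, ⟨g5, g6⟩, g7⟩ := hsce
  have hCC : C₃ ≤ C := by rw [hC]; linarith
  have hmono : ∀ a : ℝ, A' ≤ a → Real.exp (-(a * l)) ≤ Real.exp (-(A' * l)) := by
    intro a ha
    apply Real.exp_le_exp.2
    have := mul_le_mul_of_nonneg_right ha hl0.le
    linarith
  refine ⟨η₁, A, B, ⟨E, η⟩ + v * gb d M v ⟨E, η⟩, s, ?_, ?_, ?_, ?_⟩
  · exact
      { hη := ⟨hη0, hηη₁, hη₁1⟩
        hA := ⟨hA0, hB0, (Real.exp_pos _).le, by positivity, by positivity⟩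
        hS := hS
        hB := hpm
        hF := hF0.trans (ENNReal.ofReal_le_ofReal (hmono _ (by linarith)))
        hD := hD0.trans (ENNReal.ofReal_le_ofReal (hmono _ (by linarith)))
        hζ := ⟨rfl, g1⟩
        hs := hs2
        hm := hm
        hg := ⟨hc3.trans g2, g3.trans hCC⟩
        h0 := ⟨hc3.trans g5, g6.trans hCC⟩
        hd := by
          refine g4.trans ?_
          have h1 : 0 ≤ 1 + Real.log (1 / η) := by
            have h2 : 0 ≤ Real.log (1 / η) := by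
              apply Real.log_nonneg
              rw [le_div_iff₀ hη0]
              linarith
            linarith
          gcongr
        hK := g7 }
  · rw [hη₁']
    gcongr
    rw [hC]
    linarith
  · refine hAle.trans ?_
    gcongr
    rw [hC]
    linarith
  · refine hBle.trans ?_
    gcongr
    rw [hC]
    linarith

end Pool.Agent.LE.QD.H33
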