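import Pool.Agent.Helper33_LQD.TOA

/-!
# Row TOB: numbers on the torus, the mean of the mass
-/

set_option autoImplicit false

open MeasureTheory ProbabilityTheory Function Filter

open scoped ENNReal BigOperators Topology NNReal ComplexOrder Matrix

noncomputable section

namespace Pool.Agent.LE.QD.H33

open Pool.Agent.Anderson hiding box mem_box card_box
open Pool.Agent.Loc Pool.Agent.Mob Pool.Agent.Helper54.Bal
  Pool.Agent.Helper96.EXP Pool.Agent.BED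
open Pool.Agent.LE.MN Pool.Agent.LE.CL Pool.Agent.LE.IR

/-! ### numbers -/

/-- the error terms -/
theorem num_p {x c₁ C₁ w K₀ p' : ℝ} (hx0 : 0 < x) (hx1 : x ≤ 1) (hc₁ : 0 < c₁) (hC₁ : 1 ≤ C₁)
    (hw1 : c₁ * x ^ 60 ≤ w) (hK₀ : 0 < K₀) (hK₀' : K₀ * w ≤ C₁) (hp' : p' ≤ x ^ 270) :
    x ^ 59 * (2 * x ^ 3 * K₀ + x ^ 60 / x ^ 62 * (C₁ + 1) * (x ^ 5 / w + (x ^ 56)⁻¹ +
      2 * x ^ 3 * K₀) + 10 * x ^ 60 * p' / (x ^ 62) ^ 4) ≤
      2 * C₁ / c₁ + 2 * C₁ * (1 / c₁ + 1 + 2 * C₁ / c₁) + 10 := by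
  have hxp : 0 < x ^ 60 := pow_pos hx0 60
  have hw0 : 0 < w := lt_of_lt_of_le (mul_pos hc₁ hxp) hw1
  have h1 : x ^ 60 / w ≤ 1 / c₁ := by
    rw [div_le_div_iff₀ hw0 hc₁]
    linarith
  have h2 : x ^ 60 * K₀ ≤ C₁ / c₁ := by
    rw [le_div_iff₀ hc₁]
    have := mul_le_mul_of_nonneg_left hw1 hK₀.le
    linarith
  have hx2 : x ^ 2 ≤ 1 := pow_le_one₀ hx0.le hx1
  have e1 : x ^ 59 * (2 * x ^ 3 * K₀ + x ^ 60 / x ^ 62 * (C₁ + 1) * (x ^ 5 / w + (x ^ 56)⁻¹ +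
      2 * x ^ 3 * K₀) + 10 * x ^ 60 * p' / (x ^ 62) ^ 4) =
      2 * (x ^ 2 * (x ^ 60 * K₀)) + (C₁ + 1) * (x ^ 2 * (x ^ 60 / w) + x +
        2 * (x ^ 60 * K₀)) + 10 * (x ^ 119 * p' / x ^ 248) := by
    field_simp
  have h3 : x ^ 2 * (x ^ 60 * K₀) ≤ 1 * (C₁ / c₁) :=
    mul_le_mul hx2 h2 (by positivity) (by norm_num)
  have h4 : x ^ 2 * (x ^ 60 / w) ≤ 1 * (1 / c₁) :=
    mul_le_mul hx2 h1 (by positivity) (by norm_num)
  have h5 : x ^ 119 * p' / x ^ 248 ≤ 1 := by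
    rw [div_le_one (by positivity)]
    calc x ^ 119 * p' ≤ x ^ 119 * x ^ 270 := mul_le_mul_of_nonneg_left hp' (by positivity)
      _ = x ^ 141 * x ^ 248 := by ring
      _ ≤ 1 * x ^ 248 := mul_le_mul_of_nonneg_right (pow_le_one₀ hx0.le hx1) (by positivity)
      _ = x ^ 248 := one_mul _
  have h6 : (C₁ + 1) * (x ^ 2 * (x ^ 60 / w) + x + 2 * (x ^ 60 * K₀)) ≤
      2 * C₁ * (1 / c₁ + 1 + 2 * C₁ / c₁) := by
    refine mul_le_mul (by linarith) ?_ (by positivity) (by positivity)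
    have : 2 * C₁ / c₁ = 2 * (C₁ / c₁) := by ring
    rw [this]
    linarith
  rw [e1]
  have : 2 * C₁ / c₁ = 2 * (C₁ / c₁) := by ring
  rw [this] at h6 ⊢
  linarith

/-- the final numbers -/
theorem num_b {d : ℕ} {x c₁ C₁ C₃ K w K₀ Φ a L M q n m S T p' : ℝ} (hd : 3 ≤ d) (hx0 : 0 < x)
    (hx1 : x ≤ 1) (hc₁ : 0 < c₁) (hC₁ : 1 ≤ C₁) (hC₃ : 1 ≤ C₃) (hw1 : c₁ * x ^ 60 ≤ w)
    (hw2 : w ≤ 2 * C₁ * x ^ 60) (hK₀ : 0 < K₀) (hK₀' : K₀ * w ≤ C₁) (hΦ : 0 < Φ)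
    (hΦ' : Φ * x ^ 2 ≤ 4 * C₁) (ha : 0 ≤ a) (ha' : a * x ^ (30 * d) ≤ 1)
    (hL : 0 ≤ L) (hL' : L * x ^ 90 ≤ 1) (hM : (x ^ 300)⁻¹ ≤ M) (hq : 0 ≤ q) (hn : 0 ≤ n)
    (hm : 0 ≤ m) (hK1 : 1 ≤ K) (hK3 : C₃ * (2 * C₁) ^ d ≤ K)
    (hS : x ^ 60 * S ≤ m * (n + C₃ * a * (L * w) ^ d * q + C₃ * a * (L / M) ^ d * Φ))
    (hp : 0 ≤ p') (hp' : p' ≤ x ^ 270)
    (hT : T ≤ S + m * Φ * (2 * x ^ 3 * K₀ + x ^ 60 / x ^ 62 * (C₁ + 1) *
      (x ^ 5 / w + (x ^ 56)⁻¹ + 2 * x ^ 3 * K₀) + 10 * x ^ 60 * p' / (x ^ 62) ^ 4)) :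
    T ≤ (K * x ^ 2 * (n + a * (x ^ 60 * L) ^ d * q) +
      (4 * C₁ * C₃ + 4 * C₁ * (2 * C₁ / c₁ + 2 * C₁ * (1 / c₁ + 1 + 2 * C₁ / c₁) + 10)) * x) *
        m / x ^ 62 := by
  have hxp : 0 < x ^ 60 := pow_pos hx0 60
  have hw0 : 0 < w := lt_of_lt_of_le (mul_pos hc₁ hxp) hw1
  have hM0 : 0 < M := lt_of_lt_of_le (by positivity) hM
  -- the third term
  have h1 : L / M ≤ x ^ 210 := by
    rw [div_le_iff₀ hM0]
    have h2 : L * (x ^ 300) ≤ x ^ 210 := by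
      calc L * x ^ 300 = L * x ^ 90 * x ^ 210 := by ring
        _ ≤ 1 * x ^ 210 := mul_le_mul_of_nonneg_right hL' (by positivity)
        _ = x ^ 210 := one_mul _
    calc L = L * x ^ 300 * (x ^ 300)⁻¹ := by
          rw [mul_assoc, mul_inv_cancel₀ (by positivity), mul_one]
      _ ≤ x ^ 210 * M := mul_le_mul h2 hM (by positivity) (by positivity)
  have h3 : a * (L / M) ^ d ≤ x := by
    calc a * (L / M) ^ d ≤ a * (x ^ 210) ^ d := by gcongr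
      _ = a * x ^ (30 * d) * x ^ (180 * d) := by
          rw [← pow_mul, mul_assoc, ← pow_add]
          congr 2
          ring
      _ ≤ 1 * x ^ (180 * d) := mul_le_mul_of_nonneg_right ha' (by positivity)
      _ = x ^ (180 * d) := one_mul _
      _ ≤ x ^ 1 := pow_le_pow_of_le_one hx0.le hx1 (by omega)
      _ = x := pow_one x
  have h4 : (L * w) ^ d ≤ (2 * C₁) ^ d * (x ^ 60 * L) ^ d := by
    rw [← mul_pow]
    refine pow_le_pow_left₀ (by positivity) ?_ d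
    have := mul_le_mul_of_nonneg_left hw2 hL
    linarith
  have h5 : x ^ 62 * S ≤ m * (K * x ^ 2 * (n + a * (x ^ 60 * L) ^ d * q) + 4 * C₁ * C₃ * x) := by
    have h6 : C₃ * a * (L * w) ^ d * q ≤ K * (a * (x ^ 60 * L) ^ d * q) := by
      calc C₃ * a * (L * w) ^ d * q ≤ C₃ * a * ((2 * C₁) ^ d * (x ^ 60 * L) ^ d) * q := by
            gcongr
        _ = C₃ * (2 * C₁) ^ d * (a * (x ^ 60 * L) ^ d * q) := by ring
        _ ≤ K * (a * (x ^ 60 * L) ^ d * q) :=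
            mul_le_mul_of_nonneg_right hK3
              (mul_nonneg (mul_nonneg ha (pow_nonneg (mul_nonneg hxp.le hL) d)) hq)
    have h7 : C₃ * a * (L / M) ^ d * Φ ≤ C₃ * x * Φ := by
      have := mul_le_mul_of_nonneg_left h3 (by positivity : 0 ≤ C₃ * Φ)
      calc C₃ * a * (L / M) ^ d * Φ = C₃ * Φ * (a * (L / M) ^ d) := by ring
        _ ≤ C₃ * Φ * x := this
        _ = C₃ * x * Φ := by ring
    have h8 : n ≤ K * n := by
      have := mul_le_mul_of_nonneg_right hK1 hn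
      linarith
    calc x ^ 62 * S = x ^ 2 * (x ^ 60 * S) := by ring
      _ ≤ x ^ 2 * (m * (n + C₃ * a * (L * w) ^ d * q + C₃ * a * (L / M) ^ d * Φ)) :=
          mul_le_mul_of_nonneg_left hS (by positivity)
      _ ≤ x ^ 2 * (m * (K * n + K * (a * (x ^ 60 * L) ^ d * q) + C₃ * x * Φ)) := by
          gcongr
      _ = m * (K * x ^ 2 * (n + a * (x ^ 60 * L) ^ d * q) + C₃ * x * (Φ * x ^ 2)) := by ring
      _ ≤ m * (K * x ^ 2 * (n + a * (x ^ 60 * L) ^ d * q) + C₃ * x * (4 * C₁)) := by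
          gcongr
      _ = m * (K * x ^ 2 * (n + a * (x ^ 60 * L) ^ d * q) + 4 * C₁ * C₃ * x) := by ring
  -- the error terms
  have h9 := num_p hx0 hx1 hc₁ hC₁ hw1 hK₀ hK₀' hp'
  have hP0 : 0 ≤ 2 * x ^ 3 * K₀ + x ^ 60 / x ^ 62 * (C₁ + 1) *
      (x ^ 5 / w + (x ^ 56)⁻¹ + 2 * x ^ 3 * K₀) + 10 * x ^ 60 * p' / (x ^ 62) ^ 4 := by
    positivity
  generalize 2 * x ^ 3 * K₀ + x ^ 60 / x ^ 62 * (C₁ + 1) *
      (x ^ 5 / w + (x ^ 56)⁻¹ + 2 * x ^ 3 * K₀) + 10 * x ^ 60 * p' / (x ^ 62) ^ 4 = P at *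
  generalize 2 * C₁ / c₁ + 2 * C₁ * (1 / c₁ + 1 + 2 * C₁ / c₁) + 10 = R at *
  have h10 : x ^ 62 * (m * Φ * P) ≤ m * (4 * C₁ * R * x) := by
    calc x ^ 62 * (m * Φ * P) = m * x * (Φ * x ^ 2) * (x ^ 59 * P) := by ring
      _ ≤ m * x * (4 * C₁) * R := by
          refine mul_le_mul ?_ h9 (mul_nonneg (pow_nonneg hx0.le 59) hP0)
            (mul_nonneg (mul_nonneg hm hx0.le) (by linarith))
          exact mul_le_mul_of_nonneg_left hΦ' (mul_nonneg hm hx0.le)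
      _ = m * (4 * C₁ * R * x) := by ring
  rw [le_div_iff₀ (by positivity)]
  have h11 := mul_le_mul_of_nonneg_left hT (by positivity : 0 ≤ x ^ 62)
  calc T * x ^ 62 = x ^ 62 * T := mul_comm _ _
    _ ≤ x ^ 62 * (S + m * Φ * P) := h11
    _ = x ^ 62 * S + x ^ 62 * (m * Φ * P) := by ring
    _ ≤ m * (K * x ^ 2 * (n + a * (x ^ 60 * L) ^ d * q) + 4 * C₁ * C₃ * x) +
        m * (4 * C₁ * R * x) := add_le_add h5 h10
    _ = (K * x ^ 2 * (n + a * (x ^ 60 * L) ^ d * q) + (4 * C₁ * C₃ + 4 * C₁ * R) * x) * m := by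
        ring

/-! ### the kernel -/

theorem kk_neg (hRal : RalStmt) {d M : ℕ} [NeZero M] {ζ : ℂ} (hζ : 0 < ζ.im) (x : Tor d M) :
    kk ζ (-x) = kk ζ x := by
  unfold kk
  have h1 := (hRal d M 0 ζ hζ).2.2.2.2.2.2.1 x 0 (-x)
  have h2 : tr x (0 : Tor d M → ℝ) = 0 := rfl
  rw [h2, add_zero, add_neg_cancel] at h1
  rw [h1, (hRal d M 0 ζ hζ).2.1 x 0]

/-- the exponent of the concentration of `od` -/
theorem num_o {x l C₁ A B η₁ Φ K₀ v Y : ℝ} (hx0 : 0 < x) (hl : 1 ≤ l) (hC₁ : 1 ≤ C₁) (hA0 : 0 < A)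
    (hA : A ≤ C₁ * (x ^ 20)⁻¹ * l ^ 2) (hB0 : 0 < B) (hB : B ≤ C₁ * l) (hη0 : 0 < η₁)
    (hη : η₁ ≤ C₁ * x ^ 60 * l ^ 3) (hΦ : 0 < Φ) (hK₀ : 0 < K₀) (hv : 0 < v) (hKv : K₀ * v ≤ 1)
    (hY : 0 ≤ Y) (h : 6400 * C₁ ^ 6 * Y * (x ^ 4 * l ^ 15) ≤ 1) :
    Y * l ≤ ((x ^ 56)⁻¹ * Φ / 4) ^ 2 /
      (5 * (80 * A ^ 2 * B * (η₁ ^ 3 / (x ^ 62) ^ 4) * Φ ^ 2 * K₀) * v) := by
  rw [le_div_iff₀ (by positivity)]
  have h1 : A ^ 2 * B * (η₁ ^ 3 / (x ^ 62) ^ 4) ≤ C₁ ^ 6 * l ^ 14 / x ^ 108 := by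
    calc A ^ 2 * B * (η₁ ^ 3 / (x ^ 62) ^ 4) ≤ (C₁ * (x ^ 20)⁻¹ * l ^ 2) ^ 2 * (C₁ * l) *
        ((C₁ * x ^ 60 * l ^ 3) ^ 3 / (x ^ 62) ^ 4) := by gcongr
      _ = C₁ ^ 6 * l ^ 14 / x ^ 108 := by
          field_simp
  calc Y * l * (5 * (80 * A ^ 2 * B * (η₁ ^ 3 / (x ^ 62) ^ 4) * Φ ^ 2 * K₀) * v) =
      400 * Y * l * Φ ^ 2 * (K₀ * v) * (A ^ 2 * B * (η₁ ^ 3 / (x ^ 62) ^ 4)) := by ring
    _ ≤ 400 * Y * l * Φ ^ 2 * 1 * (C₁ ^ 6 * l ^ 14 / x ^ 108) := by gcongr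
    _ = 6400 * C₁ ^ 6 * Y * (x ^ 4 * l ^ 15) * (Φ ^ 2 / (16 * x ^ 112)) := by
        field_simp
        ring
    _ ≤ 1 * (Φ ^ 2 / (16 * x ^ 112)) := mul_le_mul_of_nonneg_right h (by positivity)
    _ = ((x ^ 56)⁻¹ * Φ / 4) ^ 2 := by
        field_simp
        norm_num

/-- the numbers of the kernel -/
theorem num_k {x l c₁ C₁ η w v g i₀ : ℝ} (hx0 : 0 < x) (hx1 : x ≤ 1) (hC₁ : 1 ≤ C₁) (hc₁ : 0 < c₁)
    (hη : η = x ^ 62) (hv : v = x ^ 60) (hw : w = η + v * g) (hg : c₁ ≤ g ∧ g ≤ C₁)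
    (hi : c₁ ≤ i₀ ∧ i₀ ≤ C₁) (hlog : 1 + Real.log (1 / η) ≤ 4 * l)
    (hd : |g - i₀| ≤ C₁ * (2 * x ^ 3) * (1 + Real.log (1 / η))) (h : 16 * C₁ * (x * l) ≤ 1) :
    0 < w ∧ η ≤ w ∧ c₁ * x ^ 60 ≤ w ∧ w ≤ 2 * C₁ * x ^ 60 ∧ 0 < 1 - v * (i₀ / w) ∧
      1 / (1 - v * (i₀ / w)) * x ^ 2 ≤ 4 * C₁ ∧ 0 < i₀ / w ∧ i₀ / w * w ≤ C₁ := by
  have hη0 : 0 < η := by rw [hη]; positivity
  have hv0 : 0 < v := by rw [hv]; positivity
  have hg0 : 0 < g := lt_of_lt_of_le hc₁ hg.1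
  have hi0 : 0 < i₀ := lt_of_lt_of_le hc₁ hi.1
  have hw0 : 0 < w := by rw [hw]; positivity
  have h1 : η ≤ w := by
    rw [hw]
    have := mul_pos hv0 hg0
    linarith
  have h2 : c₁ * x ^ 60 ≤ w := by
    rw [hw, hv]
    have := mul_le_mul_of_nonneg_left hg.1 (pow_nonneg hx0.le 60)
    linarith
  have h3 : w ≤ 2 * C₁ * x ^ 60 := by
    rw [hw, hv]
    have e1 := mul_le_mul_of_nonneg_left hg.2 (pow_nonneg hx0.le 60)
    have e2 : x ^ 62 ≤ x ^ 60 := pow_le_pow_of_le_one hx0.le hx1 (by norm_num)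
    have e3 := mul_le_mul_of_nonneg_right hC₁ (pow_nonneg hx0.le 60)
    rw [hη]
    linarith
  have h4 : η / 2 ≤ w - v * i₀ := by
    have e1 : v * |g - i₀| ≤ v * (C₁ * (2 * x ^ 3) * (4 * l)) := by
      refine mul_le_mul_of_nonneg_left (hd.trans ?_) hv0.le
      exact mul_le_mul_of_nonneg_left hlog (by positivity)
    have e2 : v * (C₁ * (2 * x ^ 3) * (4 * l)) = 16 * C₁ * (x * l) * (η / 2) := by
      rw [hv, hη]
      ring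
    have e3 := mul_le_mul_of_nonneg_right h (by linarith : 0 ≤ η / 2)
    have e4 := mul_le_mul_of_nonneg_left (neg_le_of_abs_le (le_refl |g - i₀|)) hv0.le
    rw [hw]
    rw [e2] at e1
    linarith
  have h5 : 1 - v * (i₀ / w) = (w - v * i₀) / w := by
    field_simp
  have h6 : 0 < w - v * i₀ := by linarith
  refine ⟨hw0, h1, h2, h3, by rw [h5]; positivity, ?_, by positivity, ?_⟩
  · rw [h5, one_div_div, div_mul_eq_mul_div, div_le_iff₀ h6]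
    have e1 : w * x ^ 2 ≤ 2 * C₁ * η := by
      have := mul_le_mul_of_nonneg_right h3 (pow_nonneg hx0.le 2)
      rw [hη]
      calc w * x ^ 2 ≤ 2 * C₁ * x ^ 60 * x ^ 2 := this
        _ = 2 * C₁ * x ^ 62 := by ring
    have e2 := mul_le_mul_of_nonneg_left h4 (by linarith : 0 ≤ 4 * C₁)
    linarith
  · rw [div_mul_cancel₀ _ hw0.ne']
    exact hi.2

/-! ### the theorem -/

/-- TOB -/
theorem tob (hRal : RalStmt) (hToa : ToaStmt) (hOff : OffStmt) (hTer : TerStmt) (hRws : RwsStmt)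
    (hGap : GapStmt) : TobStmt := by
  intro d δ hd hδ
  obtain ⟨c₁, C₁, hc₁, hc₁4, hC₁, toa⟩ := hToa d δ 12 hd hδ (by norm_num)
  obtain ⟨c₂, C₂, hc₂, hc₂1, hC₂, gap⟩ := hGap d (δ / 2) hd (by positivity)
  obtain ⟨C₃, hC₃, rws⟩ := hRws d c₂ hd hc₂
  have hd0 : (0 : ℝ) ≤ d := Nat.cast_nonneg d
  obtain ⟨K, hK⟩ : ∃ K : ℝ, K = 1 + C₃ / c₁ + C₃ * (2 * C₁) ^ d := ⟨_, rfl⟩
  obtain ⟨R, hR⟩ : ∃ R : ℝ, R = 4 * C₁ * C₃ +
    4 * C₁ * (2 * C₁ / c₁ + 2 * C₁ * (1 / c₁ + 1 + 2 * C₁ / c₁) + 10) := ⟨_, rfl⟩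
  have hK1 : 1 ≤ K := by
    rw [hK]
    have h1 : 0 ≤ C₃ / c₁ := by positivity
    have h2 : 0 ≤ C₃ * (2 * C₁) ^ d := by positivity
    linarith
  have hK2 : C₃ / c₁ ≤ K := by
    rw [hK]
    have h2 : 0 ≤ C₃ * (2 * C₁) ^ d := by positivity
    linarith
  have hK3 : C₃ * (2 * C₁) ^ d ≤ K := by
    rw [hK]
    have h1 : 0 ≤ C₃ / c₁ := by positivity
    linarith
  have ev1 := evx (16 * C₁) 1 1 (by norm_num)
  have ev2 := evx (2 * C₁ / c₂) 60 0 (by norm_num)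
  have ev3 := evx (C₂ / c₁) 240 0 (by norm_num)
  have ev4 := evx C₃ 210 0 (by norm_num)
  have ev5 := evx 8 23 0 (by norm_num)
  have ev6 := evx (6400 * C₁ ^ 6 * (20 * d + 9 + 2)) 4 15 (by norm_num)
  have ev7 := ev R (a := 1 / 30 - 1 / 31) 0 (by norm_num)
  obtain ⟨c, hc0, hcm, hev⟩ := ext (ev1.and (ev2.and (ev3.and (ev4.and (ev5.and (ev6.and
    ev7)))))) c₁ hc₁
  refine ⟨c, K, hc0, hcm.trans hc₁4, hK1, ?_⟩
  intro M _ v σ E η L n 𝒜 C' hv hσ hσc hE hη hM1 hM2 hKL hL hn h𝒜 h𝒜c hcov hcard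
  obtain ⟨η₁, A, B, ζ, s, kin, hη₁, hA, hB⟩ := toa M v σ E η hv hσ (hσc.trans hcm) hE hη hM1 hM2
  obtain ⟨t, ht⟩ : ∃ t : ℝ, t = |σ| := ⟨_, rfl⟩
  have ht0 : 0 < t := by rw [ht]; exact abs_pos.2 hσ
  rw [← ht] at hσc hη hM1 hM2 hL h𝒜c kin hη₁ hA hB ⊢
  have hσ2 : σ ^ 2 = t ^ 2 := by rw [ht, sq_abs]
  rw [hσ2] at hv hKL hη₁ ⊢
  obtain ⟨f1, f2, f3, f4, f5, f6, f7⟩ := hev t ht0 hσc
  have ht4 : t ≤ 1 / 4 := hσc.trans (hcm.trans hc₁4)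
  obtain ⟨hx0, hx1, hx30, hl⟩ := base ht0 ht4
  have hMx := expM ht0 hM2 d
  have pw31 := pw ht0 62 (a := 31 / 15) (by norm_num)
  have pw6 := pw ht0 5 (a := 1 / 6) (by norm_num)
  have pw10 := pw ht0 3 (a := 1 / 10) (by norm_num)
  have pw15 := pw ht0 2 (a := 1 / 15) (by norm_num)
  have pw12 := pw ht0 360 (a := 12) (by norm_num)
  have pwm10 := pwn ht0 300 (a := -10) (by norm_num)
  have pwm3 := pwn ht0 90 (a := -3) (by norm_num)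
  have pwmd := pwn ht0 (30 * d) (a := -(d : ℝ)) (by push_cast; ring)
  have pwm23 := pwn ht0 20 (a := -(2 / 3)) (by norm_num)
  have hτ : R * t ^ (1 / 30 : ℝ) ≤ t ^ (1 / 31 : ℝ) := by
    have h1 : t ^ (1 / 30 : ℝ) = t ^ (1 / 30 - 1 / 31 : ℝ) * t ^ (1 / 31 : ℝ) := by
      rw [← Real.rpow_add ht0]
      congr 1
      ring
    rw [pow_zero, mul_one] at f7
    rw [h1, ← mul_assoc]
    have h2 := mul_le_mul_of_nonneg_right f7 (Real.rpow_nonneg ht0.le (1 / 31 : ℝ))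
    linarith
  have hlt : Real.exp (-Real.log (1 / t)) = t := by
    rw [one_div, Real.log_inv, neg_neg, Real.exp_log ht0]
  rw [pw31] at hη
  rw [pwm10] at hM1
  rw [pwm3] at hL
  rw [pwmd] at h𝒜c
  rw [pw12, pw6, pw10] at kin
  rw [pwm23] at hA
  rw [pw15]
  clear f7 ev1 ev2 ev3 ev4 ev5 ev6 ev7 hev hσc pw31 pw6 pw10 pw15 pw12 pwm10 pwm3 pwmd pwm23
  generalize hx : t ^ (1 / 30 : ℝ) = x at *
  generalize hτ' : t ^ (1 / 31 : ℝ) = τ at *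
  generalize hl' : Real.log (1 / t) = l at *
  simp only [pow_zero, mul_one, pow_one] at f1 f2 f3 f4 f5 f6
  have hxt : t ^ 2 = x ^ 60 := by rw [← hx30]; ring
  have hl0 : 0 < l := by linarith
  have hexp4 : Real.exp (-l) ≤ 1 / 4 := by rw [hlt]; exact ht4
  rw [hxt] at hv hKL hη₁ ⊢
  have hv0 : 0 < (v : ℝ) := by rw [hv]; positivity
  have hη0 : 0 < η := kin.hη.1
  have hlogη : 1 + Real.log (1 / η) ≤ 4 * l := by
    have h1 : Real.log (1 / η) ≤ Real.log (1 / t ^ 3) := by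
      refine Real.log_le_log (by positivity) (one_div_le_one_div_of_le (by positivity) ?_)
      rw [hη, ← hx30, ← pow_mul]
      exact pow_le_pow_of_le_one hx0.le hx1 (by norm_num)
    have h3 : Real.log (1 / t ^ 3) = 3 * l := by
      rw [← hl', one_div, one_div, Real.log_inv, Real.log_inv, Real.log_pow]
      push_cast
      ring
    linarith
  -- the kernel
  have hwim : ζ.im = η + v * (gb d M v ⟨E, η⟩).im := by
    rw [kin.hζ.1]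
    simp
  obtain ⟨hw0, hηw, hw1, hw2, hθ, hΦx, hK₀0, hK₀w⟩ := num_k hx0 hx1 hC₁ hc₁ hη hv hwim kin.hg
    kin.h0 hlogη kin.hd f1
  rw [← kin.hK] at hθ hΦx hK₀0 hK₀w
  have hM0 : (0 : ℝ) < M := Nat.cast_pos.2 (NeZero.pos M)
  have hgap : Gap (fun x : Tor d M => kk ζ x) c₂ ζ.im := by
    refine gap M ζ kin.hζ.2 hw0 ?_ ?_
    · refine hw2.trans ?_
      have h1 : 2 * C₁ / c₂ * x ^ 60 = 2 * C₁ * x ^ 60 / c₂ := by ring
      rw [h1, div_le_one hc₂] at f2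
      exact f2
    · have h1 : C₂ / ζ.im ≤ C₂ / c₁ / x ^ 60 := by
        rw [div_div]
        exact div_le_div_of_nonneg_left (by linarith) (by positivity) hw1
      exact h1.trans ((dinv hx0 60 240 f3).trans hM1)
  have hL90 : (L : ℝ) * x ^ 90 ≤ 1 := by
    have := mul_le_mul_of_nonneg_right hL (pow_nonneg hx0.le 90)
    rwa [inv_mul_cancel₀ (by positivity)] at this
  obtain ⟨f, hf1, hf2, hf3⟩ := rws M (kk ζ) v ζ.im L n 𝒜 C' (fun x => by unfold kk; positivity)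
    (kk_neg hRal hw0) hv0 hK₀0 (by linarith) hw0
    (by
      refine (hw2.trans ?_).trans hc₂1
      have h1 : 2 * C₁ / c₂ * x ^ 60 = 2 * C₁ * x ^ 60 / c₂ := by ring
      rw [h1, div_le_one hc₂] at f2
      exact f2)
    hgap
    (by
      have h1 := mul_le_mul_of_nonneg_right hw1 (Nat.cast_nonneg (α := ℝ) L)
      have h2 := mul_le_mul_of_nonneg_left hKL hc₁.le
      have h3 : C₃ ≤ c₁ * K := by
        rw [div_le_iff₀ hc₁] at hK2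
        linarith
      linarith)
    (by
      refine le_trans ?_ hM1
      rw [← one_div, le_div_iff₀ (by positivity)]
      calc C₃ * L * x ^ 300 = C₃ * x ^ 210 * (L * x ^ 90) := by ring
        _ ≤ 1 * 1 := mul_le_mul f4 hL90 (by positivity) (by norm_num)
        _ = 1 := one_mul 1)
    hn hcov hcard
  -- the concentration of `od`
  obtain ⟨K₀, hK₀⟩ : ∃ K₀ : ℝ, K₀ = ∑ x : Tor d M, kk ζ x := ⟨_, rfl⟩
  obtain ⟨Φ, hΦ⟩ : ∃ Φ : ℝ, Φ = 1 / (1 - v * K₀) := ⟨_, rfl⟩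
  rw [← hK₀] at hθ hΦx hK₀0 hK₀w hf1 hf3
  rw [← hΦ] at hΦx hf1
  have hΦ0 : 0 < Φ := by rw [hΦ]; positivity
  have hx360 : Real.exp (-((9 + 3) * l)) = x ^ 360 := by
    have h1 : Real.exp (-((9 + 3) * l)) = Real.exp (-l) ^ 12 := by
      rw [← Real.exp_nat_mul]
      congr 1
      push_cast
      ring
    rw [h1, hlt, ← hx30, ← pow_mul]
  have hx270 : Real.exp (-(9 * l)) = x ^ 270 := by
    have h1 : Real.exp (-(9 * l)) = Real.exp (-l) ^ 9 := by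
      rw [← Real.exp_nat_mul]
      congr 1
      push_cast
      ring
    rw [h1, hlt, ← hx30, ← pow_mul]
  have hod : gau d M v {V | ¬ ∀ y, ‖od V ⟨E, η⟩ ζ f y - ∫ W, od W ⟨E, η⟩ ζ f y ∂(gau d M v)‖ ≤
      (x ^ 56)⁻¹ * Φ} ≤ ENNReal.ofReal (x ^ 270) := by
    have h1 := hOff d M v E η η₁ A B (x ^ 360) ((x ^ 56)⁻¹ * Φ / 4) Φ K₀ ζ f hη0 kin.hη.2.1
      kin.hA.1 kin.hA.2.1 hΦ0 hK₀0 hηw
      (fun y => by rw [abs_of_nonneg (hf1 y).1]; exact (hf1 y).2) hK₀.ge kin.hS kin.hB kin.hF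
      (by positivity) (by positivity)
    refine (measure_mono ?_).trans (h1.trans (ENNReal.ofReal_le_ofReal ?_))
    · intro V hV hcon
      apply hV
      intro y
      refine (hcon y).trans ?_
      have h2 : 4 * x ^ 360 * Φ / η ^ 2 ≤ (x ^ 56)⁻¹ * Φ / 2 := by
        rw [hη, div_le_iff₀ (by positivity)]
        have e1 : x ^ 292 ≤ 1 / 8 := by
          calc x ^ 292 = x ^ 269 * x ^ 23 := by ring
            _ ≤ 1 * x ^ 23 := mul_le_mul_of_nonneg_right (pow_le_one₀ hx0.le hx1)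
                (pow_nonneg hx0.le 23)
            _ ≤ 1 / 8 := by linarith
        calc 4 * x ^ 360 * Φ = 4 * Φ * x ^ 68 * x ^ 292 := by ring
          _ ≤ 4 * Φ * x ^ 68 * (1 / 8) := mul_le_mul_of_nonneg_left e1 (by positivity)
          _ = (x ^ 56)⁻¹ * Φ / 2 * (x ^ 62) ^ 2 := by
              field_simp
              norm_num
      linarith
    · have h2 : (20 * d + 9 + 2) * l ≤ ((x ^ 56)⁻¹ * Φ / 4) ^ 2 /
          (5 * (80 * A ^ 2 * B * (η₁ ^ 3 / (x ^ 62) ^ 4) * Φ ^ 2 * K₀) * v) := by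
        refine num_o hx0 hl hC₁ kin.hA.1 hA kin.hA.2.1 hB
          (lt_of_lt_of_le hη0 kin.hη.2.1) hη₁ hΦ0 hK₀0 hv0 ?_ (by positivity) f6
        rw [mul_comm]
        linarith
      have h3 := num_d hMx hexp4 h2
      rw [hx360, hx270] at h3
      rw [hη]
      exact h3
  -- the mean of the mass
  have hter := hTer d M v E η (x ^ 5) ((x ^ 56)⁻¹) (2 * x ^ 3) K₀ (C₁ + 1) Φ (x ^ 270) ζ s C' f
    hη0 (by positivity) (by positivity) (by positivity) hΦ0 (by positivity)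
    (hc₁.le.trans kin.hg.1) kin.hζ.1 kin.hs kin.hm hK₀.ge
    (add_le_add kin.hg.2 (pow_le_one₀ hx0.le hx1)) hf1 hf2
    (kin.hD.trans (ENNReal.ofReal_le_ofReal (pow_le_pow_of_le_one hx0.le hx1 (by norm_num)))) hod
  have hS : x ^ 60 * (∑ y, f y * ∑ b ∈ C', kk ζ (y - b)) ≤ (C'.card : ℝ) * (n + C₃ * 𝒜.card *
      (L * ζ.im) ^ d * (n : ℝ) ^ (1 - (d : ℝ) / 2) + C₃ * 𝒜.card * ((L : ℝ) / M) ^ d * Φ) := by
    rw [← hv]
    refine hf3.trans (le_of_eq ?_)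
    rw [hΦ, mul_one_div]
  rw [hv, hη] at hter
  have h𝒜x : (𝒜.card : ℝ) * x ^ (30 * d) ≤ 1 := by
    have := mul_le_mul_of_nonneg_right h𝒜c (pow_nonneg hx0.le (30 * d))
    rwa [inv_mul_cancel₀ (by positivity)] at this
  have hfin := num_b hd hx0 hx1 hc₁ hC₁ hC₃ hw1 hw2 hK₀0 hK₀w hΦ0 hΦx (Nat.cast_nonneg 𝒜.card)
    h𝒜x (Nat.cast_nonneg L) hL90 hM1 (Real.rpow_nonneg (Nat.cast_nonneg n) (1 - (d : ℝ) / 2))
    (Nat.cast_nonneg n) (Nat.cast_nonneg C'.card) hK1 hK3 hS (by positivity) le_rfl hter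
  rw [← hR] at hfin
  rw [hη]
  refine hfin.trans ?_
  gcongr

end Pool.Agent.LE.QD.H33
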