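import Pool.Agent.Helper33_LQD.TOB

/-!
# Row TOM: the torus
-/

set_option autoImplicit false

open MeasureTheory ProbabilityTheory Function Filter

open scoped ENNReal BigOperators Topology NNReal ComplexOrder Matrix

noncomputable section

namespace Pool.Agent.LE.QD.H33

open Pool.Agent.Anderson hiding box mem_box card_box
open Pool.Agent.Loc Pool.Agent.Mob Pool.Agent.Helper54.Bal
  Pool.Agent.Helper96.EXP Pool.Agent.BED
open Pool.Agent.LE.MN Pool.Agent.LE.CL Pool.Agent.LE.IR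

/-! ### unions of cubes -/

section cubes

variable {d M : ℕ} [NeZero M]

theorem cbt_card (a : Tor d M) (L : ℕ) : (cbt a L).card ≤ L ^ d := by
  have h1 : (Fintype.piFinset fun _ : Fin d => Finset.range L).card = L ^ d := by
    rw [Fintype.card_piFinset]
    simp
  rw [← h1]
  refine Finset.card_le_card_of_injOn (fun x i => (x i - a i).val) ?_ ?_
  · intro x hx
    have h2 : ∀ i, (x i - a i).val < L := by
      simpa [cbt] using hx
    simpa using h2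
  · intro x _ y _ hxy
    funext i
    have h3 := congrFun hxy i
    simp only at h3
    have h4 := ZMod.val_injective M h3
    exact sub_left_injective h4

/-- the union of the cubes -/
def uc (L : ℕ) (𝒜 : Finset (Tor d M)) : Finset (Tor d M) := 𝒜.biUnion fun a => cbt a L

theorem uc_eq {L : ℕ} {𝒜 C' : Finset (Tor d M)} (h1 : ∀ x ∈ C', ∃ a ∈ 𝒜, x ∈ cbt a L)
    (h2 : C'.card = 𝒜.card * L ^ d) : C' = uc L 𝒜 := by
  refine Finset.eq_of_subset_of_card_le ?_ ?_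
  · intro x hx
    obtain ⟨a, ha, hxa⟩ := h1 x hx
    exact Finset.mem_biUnion.2 ⟨a, ha, hxa⟩
  · rw [h2]
    exact Finset.card_biUnion_le_card_mul _ _ _ fun a _ => cbt_card a L

theorem sum_fam (U : Finset (Tor d M) → Finset (Tor d M)) (𝒮 : Finset (Finset (Tor d M)))
    (h𝒮 : ∀ 𝒜 ∈ 𝒮, 𝒜.Nonempty) (F : Finset (Tor d M) → ℝ) (hF0 : ∀ C, 0 ≤ F C) {q : ℝ}
    (hq0 : 0 ≤ q) (hq : (M : ℝ) ^ d * q ≤ 1) (hF : ∀ 𝒜 ∈ 𝒮, F (U 𝒜) ≤ 2 * q ^ 𝒜.card) :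
    ∑ C ∈ 𝒮.image U, F C ≤ 4 * ((M : ℝ) ^ d * q) := by
  classical
  have h1 : ∑ C ∈ 𝒮.image U, F C ≤ ∑ 𝒜 ∈ 𝒮, F (U 𝒜) := by
    rw [← Finset.sum_fiberwise_of_maps_to (s := 𝒮) (t := 𝒮.image U) (g := U)
      (fun 𝒜 h => Finset.mem_image_of_mem U h)]
    refine Finset.sum_le_sum fun C hC => ?_
    obtain ⟨𝒜, h𝒜, rfl⟩ := Finset.mem_image.1 hC
    exact Finset.single_le_sum (f := fun 𝒜 => F (U 𝒜)) (fun 𝒜 _ => hF0 _)
      (Finset.mem_filter.2 ⟨h𝒜, rfl⟩)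
  have h2 : ∑ 𝒜 ∈ 𝒮, F (U 𝒜) ≤ ∑ 𝒜 ∈ (Finset.univ : Finset (Finset (Tor d M))).erase ∅,
      2 * q ^ 𝒜.card := by
    refine (Finset.sum_le_sum hF).trans (Finset.sum_le_sum_of_subset_of_nonneg ?_ ?_)
    · intro 𝒜 h
      exact Finset.mem_erase.2 ⟨(h𝒮 𝒜 h).ne_empty, Finset.mem_univ _⟩
    · intro 𝒜 _ _
      positivity
  have h3 : ∑ 𝒜 ∈ (Finset.univ : Finset (Finset (Tor d M))).erase ∅, 2 * q ^ 𝒜.card =
      2 * ((q + 1) ^ (Fintype.card (Tor d M)) - 1) := by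
    have h4 := Fintype.sum_pow_mul_eq_add_pow (Tor d M) q 1
    simp only [one_pow, mul_one] at h4
    rw [← h4, ← Finset.mul_sum, Finset.sum_erase_eq_sub (Finset.mem_univ _)]
    simp
  have hcard : (Fintype.card (Tor d M) : ℝ) = (M : ℝ) ^ d := by
    rw [Fintype.card_fun, ZMod.card, Fintype.card_fin]
    push_cast
    rfl
  have h5 : (q + 1) ^ (Fintype.card (Tor d M)) ≤ Real.exp ((M : ℝ) ^ d * q) := by
    rw [← hcard, Real.exp_nat_mul]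
    exact pow_le_pow_left₀ (by positivity) (Real.add_one_le_exp q) _
  have hy : 0 ≤ (M : ℝ) ^ d * q := by positivity
  have h6 := Real.abs_exp_sub_one_le (x := (M : ℝ) ^ d * q) (by rw [abs_of_nonneg hy]; exact hq)
  rw [abs_of_nonneg hy] at h6
  have h7 := le_abs_self (Real.exp ((M : ℝ) ^ d * q) - 1)
  rw [h3] at h2
  linarith

end cubes

/-! ### numbers -/

/-- the exponent of the concentration of the mass -/
theorem num_m {d : ℕ} {x l C₁ B η₁ τ v Y L j : ℝ} (hd : 3 ≤ d) (hx0 : 0 < x) (hx1 : x ≤ 1)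
    (hl : 1 ≤ l) (hC₁ : 1 ≤ C₁) (hB0 : 0 < B) (hB : B ≤ C₁ * l) (hη0 : 0 < η₁)
    (hη : η₁ ≤ C₁ * x ^ 60 * l ^ 3) (hτ : x ≤ τ) (hv : v = x ^ 60) (hL : 1 ≤ x ^ 60 * L)
    (hj : 0 ≤ j) (hY : 0 ≤ Y) (h : 160 * C₁ ^ 4 * Y * (x ^ 110 * l ^ 9) ≤ 1) :
    j * (Y * l) ≤ (τ / (2 * x ^ 62)) ^ 2 * (j * L ^ d) * (x ^ 62) ^ 6 /
      (40 * B ^ 2 * η₁ ^ 2 * v) := by
  have hv0 : 0 < v := by rw [hv]; positivity
  have hx60 : 0 < x ^ 60 := by positivity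
  have hL0 : 0 < L := by
    by_contra hcon
    have := mul_nonpos_of_nonneg_of_nonpos hx60.le (not_lt.1 hcon)
    linarith
  have hL1 : 1 ≤ L := by
    have h1 : x ^ 60 * L ≤ 1 * L := mul_le_mul_of_nonneg_right (pow_le_one₀ hx0.le hx1) hL0.le
    linarith
  have h1 : 1 ≤ x ^ 180 * L ^ d := by
    calc (1 : ℝ) ≤ (x ^ 60 * L) ^ 3 := one_le_pow₀ hL
      _ = x ^ 180 * L ^ 3 := by ring
      _ ≤ x ^ 180 * L ^ d := by
          refine mul_le_mul_of_nonneg_left (pow_le_pow_right₀ hL1 hd) (pow_nonneg hx0.le 180)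
  rw [le_div_iff₀ (by positivity)]
  have h2 : j * (Y * l) * (40 * B ^ 2 * η₁ ^ 2 * v) ≤
      j * (Y * l) * (40 * (C₁ * l) ^ 2 * (C₁ * x ^ 60 * l ^ 3) ^ 2 * x ^ 60) := by
    rw [hv]
    gcongr
  have h3 : j * (Y * l) * (40 * (C₁ * l) ^ 2 * (C₁ * x ^ 60 * l ^ 3) ^ 2 * x ^ 60) =
      160 * C₁ ^ 4 * Y * (x ^ 110 * l ^ 9) * (j * x ^ 70 / 4) := by ring
  have h4 : 160 * C₁ ^ 4 * Y * (x ^ 110 * l ^ 9) * (j * x ^ 70 / 4) ≤ 1 * (j * x ^ 70 / 4) :=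
    mul_le_mul_of_nonneg_right h (by positivity)
  have h5 : j * x ^ 70 / 4 ≤ (x / (2 * x ^ 62)) ^ 2 * (j * L ^ d) * (x ^ 62) ^ 6 := by
    have e1 : (x / (2 * x ^ 62)) ^ 2 * (j * L ^ d) * (x ^ 62) ^ 6 =
        j * x ^ 70 / 4 * (x ^ 180 * L ^ d) := by
      field_simp
      ring
    rw [e1]
    have e2 := mul_le_mul_of_nonneg_left h1 (by positivity : 0 ≤ j * x ^ 70 / 4)
    linarith
  have h6 : (x / (2 * x ^ 62)) ^ 2 * (j * L ^ d) * (x ^ 62) ^ 6 ≤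
      (τ / (2 * x ^ 62)) ^ 2 * (j * L ^ d) * (x ^ 62) ^ 6 := by
    gcongr
  linarith

/-! ### the theorem -/

/-- TOM -/
theorem tom (hToa : ToaStmt) (hTob : TobStmt) (hMas : MasStmt) : TomStmt := by
  intro d δ A' hd hδ hA'
  obtain ⟨c₁, C₁, hc₁, hc₁4, hC₁, toa⟩ := hToa d δ (A' + 3) hd hδ (by linarith)
  obtain ⟨c₂, K, hc₂, hc₂4, hK, tob⟩ := hTob d δ hd hδ
  have hd0 : (0 : ℝ) ≤ d := Nat.cast_nonneg d
  have ev1 := evx (2 / c₁) 5 0 (by norm_num)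
  have ev2 := evx (160 * C₁ ^ 4 * (20 * d + A' + 3)) 110 9 (by norm_num)
  have ev3 := evx 4 27 0 (by norm_num)
  obtain ⟨c, hc0, hcm, hev⟩ := ext (ev1.and (ev2.and ev3)) (min (c₁ / 2) c₂)
    (lt_min (by positivity) hc₂)
  have hcc1 : c ≤ c₁ / 2 := hcm.trans (min_le_left _ _)
  have hcc2 : c ≤ c₂ := hcm.trans (min_le_right _ _)
  refine ⟨c, K, hc0, hcc2.trans hc₂4, hK, ?_⟩
  intro M _ v σ E η L N n hv hσ hσc hE hη hM1 hM2 hKL hL hn hN
  obtain ⟨η₁, A, B, ζ, s, kin, hη₁, hA, hB⟩ := toa M v σ E η hv hσ (hσc.trans (by linarith)) hE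
    hη hM1 hM2
  have hmean : ∀ 𝒜 C' : Finset (Tor d M), 𝒜.Nonempty → 𝒜.card ≤ N →
      (∀ x ∈ C', ∃ a ∈ 𝒜, x ∈ cbt a L) → C'.card = 𝒜.card * L ^ d →
      ∫ W, mss W ⟨E, η⟩ C' ∂(gau d M v) ≤
        (K * |σ| ^ (1 / 15 : ℝ) * (n + N * (σ ^ 2 * L) ^ d * (n : ℝ) ^ (1 - (d : ℝ) / 2)) +
          |σ| ^ (1 / 31 : ℝ)) * C'.card / η := by
    intro 𝒜 C' h1 h2 h3 h4
    have h2' : (𝒜.card : ℝ) ≤ N := Nat.cast_le.2 h2
    refine (tob M v σ E η L n 𝒜 C' hv hσ (hσc.trans hcc2) hE hη hM1 hM2 hKL hL hn h1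
      (h2'.trans hN) h3 h4).trans ?_
    have hη0 : 0 < η := kin.hη.1
    have hK0 : 0 ≤ K := by linarith
    gcongr
  obtain ⟨t, ht⟩ : ∃ t : ℝ, t = |σ| := ⟨_, rfl⟩
  have ht0 : 0 < t := by rw [ht]; exact abs_pos.2 hσ
  rw [← ht] at hσc hη hM1 hM2 kin hη₁ hA hB hmean ⊢
  have hσ2 : σ ^ 2 = t ^ 2 := by rw [ht, sq_abs]
  rw [hσ2] at hv hKL hη₁ hmean ⊢
  obtain ⟨f1, f2, f3⟩ := hev t ht0 hσc
  have ht4 : t ≤ 1 / 4 := hσc.trans (hcc2.trans hc₂4)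
  obtain ⟨hx0, hx1, hx30, hl⟩ := base ht0 ht4
  have hMx := expM ht0 hM2 d
  have pw31 := pw ht0 62 (a := 31 / 15) (by norm_num)
  have pw6 := pw ht0 5 (a := 1 / 6) (by norm_num)
  have pw15 := pw ht0 2 (a := 1 / 15) (by norm_num)
  have pwA := te ht0 (A' + 3)
  have pwA' := te ht0 A'
  have hτ : t ^ (1 / 30 : ℝ) ≤ t ^ (1 / 31 : ℝ) :=
    Real.rpow_le_rpow_of_exponent_ge ht0 (by linarith) (by norm_num)
  have hlt : Real.exp (-Real.log (1 / t)) = t := by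
    rw [one_div, Real.log_inv, neg_neg, Real.exp_log ht0]
  rw [pw31] at hη
  rw [pw6, pwA] at kin
  rw [pw15] at hmean ⊢
  rw [pwA']
  clear ev1 ev2 ev3 hev pw31 pw6 pw15 pwA pwA'
  generalize hx : t ^ (1 / 30 : ℝ) = x at *
  generalize hτ' : t ^ (1 / 31 : ℝ) = τ at *
  generalize hl' : Real.log (1 / t) = l at *
  simp only [pow_zero, mul_one] at f1 f2 f3
  have hxt : t ^ 2 = x ^ 60 := by rw [← hx30]; ring
  have hl0 : 0 < l := by linarith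
  have hexp4 : Real.exp (-l) ≤ 1 / 4 := by rw [hlt]; exact ht4
  rw [hxt] at hv hKL hη₁ hmean ⊢
  have hv0 : 0 < (v : ℝ) := by rw [hv]; positivity
  have hη0 : 0 < η := kin.hη.1
  have hη₁0 : 0 < η₁ := lt_of_lt_of_le hη0 kin.hη.2.1
  have hτ0 : 0 < τ := lt_of_lt_of_le hx0 hτ
  have hL1 : 1 ≤ x ^ 60 * (L : ℝ) := hK.trans hKL
  have hLpos : 0 < L := by
    rcases Nat.eq_zero_or_pos L with h | h
    · rw [h] at hL1
      norm_num at hL1
    · exact h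
  -- the probabilities
  obtain ⟨p, hp⟩ : ∃ p : ℝ, p = Real.exp (-((A' + 3) * l)) := ⟨_, rfl⟩
  rw [← hp] at kin
  have hp0 : 0 < p := by rw [hp]; exact Real.exp_pos _
  have hp90 : p ≤ x ^ 90 := by
    have h1 : p ≤ Real.exp (-l) ^ 3 := by
      rw [hp, ← Real.exp_nat_mul]
      apply Real.exp_le_exp.2
      have := mul_nonneg (by linarith : 0 ≤ A') hl0.le
      push_cast
      linarith
    rw [hlt, ← hx30, ← pow_mul] at h1
    exact h1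
  -- the family
  classical
  obtain ⟨𝒮, h𝒮⟩ : ∃ 𝒮 : Finset (Finset (Tor d M)), 𝒮 = Finset.univ.filter fun 𝒜 =>
    𝒜.Nonempty ∧ 𝒜.card ≤ N ∧ (uc L 𝒜).card = 𝒜.card * L ^ d := ⟨_, rfl⟩
  have hmem : ∀ 𝒜 ∈ 𝒮, 𝒜.Nonempty ∧ 𝒜.card ≤ N ∧ (uc L 𝒜).card = 𝒜.card * L ^ d := by
    intro 𝒜 h
    rw [h𝒮] at h
    exact (Finset.mem_filter.1 h).2
  have hne : ∀ C ∈ 𝒮.image (uc L), C.Nonempty := by
    intro C hC
    obtain ⟨𝒜, h𝒜, rfl⟩ := Finset.mem_image.1 hC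
    obtain ⟨h1, -, h3⟩ := hmem 𝒜 h𝒜
    rw [← Finset.card_pos, h3]
    exact Nat.mul_pos (Finset.card_pos.2 h1) (pow_pos hLpos d)
  have hmas := hMas d M v E η η₁ A B p (τ / (2 * η)) (𝒮.image (uc L)) hη0 kin.hη.2.1 kin.hA.1
    kin.hA.2.1 kin.hS kin.hB kin.hF hp0.le (by positivity) hne
  obtain ⟨q, hq⟩ : ∃ q : ℝ, q = Real.exp (-((20 * d + A' + 3) * l)) := ⟨_, rfl⟩
  have hMq : (M : ℝ) ^ d * q ≤ p := by
    calc (M : ℝ) ^ d * q ≤ Real.exp (20 * d * l) * q := by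
          rw [hq]
          exact mul_le_mul_of_nonneg_right hMx (Real.exp_pos _).le
      _ = p := by
          rw [hq, hp, ← Real.exp_add]
          congr 1
          ring
  have hp4 : 6 * p ≤ Real.exp (-(A' * l)) := by
    have h1 : p = Real.exp (-l) ^ 3 * Real.exp (-(A' * l)) := by
      rw [hp, ← Real.exp_nat_mul, ← Real.exp_add]
      congr 1
      push_cast
      ring
    have h2 : Real.exp (-l) ^ 3 ≤ (1 / 4) ^ 3 := pow_le_pow_left₀ (Real.exp_pos _).le hexp4 3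
    have h3 := mul_le_mul_of_nonneg_right h2 (Real.exp_pos (-(A' * l))).le
    have h4 := Real.exp_pos (-(A' * l))
    rw [h1]
    linarith
  have hp1 : p ≤ 1 := by
    refine hp90.trans (pow_le_one₀ hx0.le hx1)
  have hsum := sum_fam (uc L) 𝒮 (fun 𝒜 h => (hmem 𝒜 h).1) (fun C =>
    2 * Real.exp (-((τ / (2 * η)) ^ 2 * C.card * η ^ 6 / (40 * B ^ 2 * η₁ ^ 2 * v))))
    (fun C => by positivity) (q := q) (by rw [hq]; positivity) (hMq.trans hp1) (by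
      intro 𝒜 h𝒜
      obtain ⟨-, -, h3⟩ := hmem 𝒜 h𝒜
      refine mul_le_mul_of_nonneg_left ?_ (by norm_num)
      rw [hq, ← Real.exp_nat_mul]
      apply Real.exp_le_exp.2
      have h4 := num_m (j := 𝒜.card) (Y := 20 * d + A' + 3) hd hx0 hx1 hl hC₁ kin.hA.2.1 hB hη₁0
        hη₁ hτ hv hL1 (Nat.cast_nonneg _) (by linarith) f2
      rw [h3, hη]
      push_cast
      linarith)
  -- the event
  have hsub : {V | ¬ ((∀ x, c ≤ (rs V ⟨E, η⟩ x x).im) ∧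
      ∀ 𝒜 C' : Finset (Tor d M), 𝒜.Nonempty → 𝒜.card ≤ N → (∀ x ∈ C', ∃ a ∈ 𝒜, x ∈ cbt a L) →
        C'.card = 𝒜.card * L ^ d → mss V ⟨E, η⟩ C' ≤
          (K * x ^ 2 * (n + N * (x ^ 60 * L) ^ d * (n : ℝ) ^ (1 - (d : ℝ) / 2)) +
            2 * τ) * C'.card / η)} ⊆
      {V | ¬ ∀ y, ‖rs V ⟨E, η⟩ y y - gb d M v ⟨E, η⟩‖ ≤ x ^ 5} ∪
      {V | ¬ ∀ C ∈ 𝒮.image (uc L), mss V ⟨E, η⟩ C ≤
        (∫ W, mss W ⟨E, η⟩ C ∂(gau d M v)) + (τ / (2 * η) + 2 * p / η ^ 2) * C.card} := by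
    intro V hV
    by_contra hcon
    rw [Set.mem_union, not_or] at hcon
    obtain ⟨h1, h2⟩ := hcon
    have h1' : ∀ y, ‖rs V ⟨E, η⟩ y y - gb d M v ⟨E, η⟩‖ ≤ x ^ 5 := not_not.1 h1
    have h2' : ∀ C ∈ 𝒮.image (uc L), mss V ⟨E, η⟩ C ≤
        (∫ W, mss W ⟨E, η⟩ C ∂(gau d M v)) + (τ / (2 * η) + 2 * p / η ^ 2) * C.card :=
      not_not.1 h2
    apply hV
    refine ⟨?_, ?_⟩
    · intro y
      have h3 := (Complex.abs_im_le_norm _).trans (h1' y)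
      rw [Complex.sub_im] at h3
      have h4 := (abs_le.1 h3).1
      have h5 : x ^ 5 ≤ c₁ / 2 := by
        have h6 : 2 / c₁ * x ^ 5 = 2 * x ^ 5 / c₁ := by ring
        rw [h6, div_le_one hc₁] at f1
        linarith
      have h7 := kin.hg.1
      linarith
    · intro 𝒜 C' g1 g2 g3 g4
      have g5 := uc_eq g3 g4
      have g6 : C' ∈ 𝒮.image (uc L) := by
        rw [g5]
        refine Finset.mem_image_of_mem _ ?_
        rw [h𝒮]
        exact Finset.mem_filter.2 ⟨Finset.mem_univ _, g1, g2, by rw [← g5]; exact g4⟩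
      have g7 := h2' C' g6
      have g8 := hmean 𝒜 C' g1 g2 g3 g4
      have g9 : (τ / (2 * η) + 2 * p / η ^ 2) * (C'.card : ℝ) ≤ τ / η * C'.card := by
        refine mul_le_mul_of_nonneg_right ?_ (Nat.cast_nonneg _)
        have e1 : 2 * p / η ^ 2 ≤ τ / (2 * η) := by
          rw [div_le_div_iff₀ (by positivity) (by positivity)]
          have e2 : 4 * p ≤ τ * η := by
            calc 4 * p ≤ 4 * x ^ 90 := by linarith
              _ = 4 * x ^ 27 * (x * x ^ 62) := by ring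
              _ ≤ 1 * (x * x ^ 62) := mul_le_mul_of_nonneg_right f3 (by positivity)
              _ = x * x ^ 62 := one_mul _
              _ ≤ τ * η := by
                  rw [hη]
                  exact mul_le_mul_of_nonneg_right hτ (by positivity)
          calc 2 * p * (2 * η) = 4 * p * η := by ring
            _ ≤ τ * η * η := mul_le_mul_of_nonneg_right e2 hη0.le
            _ = τ * η ^ 2 := by ring
        have e3 : τ / η = τ / (2 * η) + τ / (2 * η) := by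
          field_simp
          norm_num
        rw [e3]
        linarith
      have g10 : (K * x ^ 2 * (n + N * (x ^ 60 * L) ^ d * (n : ℝ) ^ (1 - (d : ℝ) / 2)) +
          2 * τ) * C'.card / η = (K * x ^ 2 * (n + N * (x ^ 60 * L) ^ d *
            (n : ℝ) ^ (1 - (d : ℝ) / 2)) + τ) * C'.card / η + τ / η * C'.card := by
        ring
      rw [g10]
      linarith
  refine (measure_mono hsub).trans ((measure_union_le _ _).trans ?_)
  refine (add_le_add kin.hD hmas).trans ?_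
  have hS0 : 0 ≤ ∑ C ∈ 𝒮.image (uc L),
      2 * Real.exp (-((τ / (2 * η)) ^ 2 * C.card * η ^ 6 / (40 * B ^ 2 * η₁ ^ 2 * v))) :=
    Finset.sum_nonneg fun C _ => by positivity
  rw [← ENNReal.ofReal_add hp0.le (by linarith)]
  refine ENNReal.ofReal_le_ofReal ?_
  linarith

end Pool.Agent.LE.QD.H33
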